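import Pool.Agent.EXS.PDefsX

/-!
# A sparse sequence of cyclic extensions for Stark's conjecture: printable definitions, part 2
-/

open NumberField

namespace StarkW

/-- `G` has a normal cyclic subgroup `C` of order prime to a prime `p`, whose index is a power of
`p`. -/
def QuasiElem (G : Type) [Group G] : Prop :=
  ∃ (p : ℕ) (C : Subgroup G), p.Prime ∧ C.Normal ∧ IsCyclic C ∧ ¬ p ∣ Nat.card C ∧
    ∃ n : ℕ, C.index = p ^ n

/-- `K` has a Galois extension with quasi-elementary group which contains a copy of `E`. -/
def QExt (E K : Type) [Field E] [Field K] : Prop :=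
  ∃ (M : Type) (_ : Field M) (_ : Algebra K M), IsGalois K M ∧ QuasiElem (M ≃ₐ[K] M) ∧
    Nonempty (E →+* M)

end StarkW
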