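import Pool.Agent.EXS.QE
import Pool.Agent.SSQ.COF

/-!
# The stages
-/

open NumberField IsDedekindDomain
open scoped TensorProduct Classical

namespace StarkC.EXS

/-! ### Countability -/

theorem countable_spanZ {M : Type} [AddCommGroup M] {s : Set M} (hs : s.Countable) :
    Countable (Submodule.span ℤ s) := by
  have : Countable s := hs
  have h1 : (Set.range (Finsupp.linearCombination ℤ ((↑) : s → M))).Countable :=
    Set.countable_range _
  have h2 : ((Submodule.span ℤ s : Submodule ℤ M) : Set M) =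
      Set.range (Finsupp.linearCombination ℤ ((↑) : s → M)) := by
    rw [Finsupp.span_eq_range_linearCombination]
    rfl
  rw [← h2] at h1
  exact h1

theorem finite_hom (G : Type) [Group G] [Finite G] : Finite (G →* ℂˣ) := by
  have : NeZero (Nat.card G) := ⟨Nat.card_pos.ne'⟩
  have hf : ∀ (ψ : G →* ℂˣ) (g : G), ψ g ∈ rootsOfUnity (Nat.card G) ℂ := fun ψ g => by
    rw [mem_rootsOfUnity, ← map_pow, pow_card_eq_one', map_one]
  refine Finite.of_injective (fun (ψ : G →* ℂˣ) (g : G) =>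
    (⟨ψ g, hf ψ g⟩ : rootsOfUnity (Nat.card G) ℂ)) fun a b hab => ?_
  refine MonoidHom.ext fun g => ?_
  exact congrArg Subtype.val (congrFun hab g)

theorem countable_monComb (G : Type) [Group G] [Fintype G] :
    Countable {f : G → ℂ // IsMonComb f} := by
  have h1 : ∀ H : Subgroup G, Finite (H →* ℂˣ) := fun H => finite_hom H
  have h2 : Countable (CMB.GS (G := G) fun _ _ => True) := by
    refine countable_spanZ ?_
    exact Set.countable_range _
  refine Function.Injective.countable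
    (f := fun f : {f : G → ℂ // IsMonComb f} => (⟨f.1, SSPAN.mc_of_comb f.2⟩ :
      CMB.GS (G := G) fun _ _ => True)) fun a b hab => ?_
  exact Subtype.ext (congrArg (fun f : (CMB.GS (G := G) fun _ _ => True) => (f : G → ℂ)) hab)

/-! ### Levels -/

/-- A finite Galois extension of `ℚ` which contains `E`. -/
structure LevE (E : Type) [Field E] where
  N : Type
  [f : Field N]
  [nf : NumberField N]
  [gal : IsGalois ℚ N]
  [alg : Algebra E N]

attribute [instance] LevE.f LevE.nf LevE.gal LevE.alg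

/-- A level and a combination of monomial characters. -/
abbrev Task (N : ℕ → Type) [∀ k, Field (N k)] [∀ k, NumberField (N k)] : Type :=
  Σ k : ℕ, {f : (N k ≃ₐ[ℚ] N k) → ℂ // IsMonComb f}

theorem task_countable (N : ℕ → Type) [∀ k, Field (N k)] [∀ k, NumberField (N k)] :
    Countable (Task N) := by
  have h1 : ∀ k, Countable {f : (N k ≃ₐ[ℚ] N k) → ℂ // IsMonComb f} :=
    fun k => countable_monComb _
  infer_instance

theorem task_nonempty (N : ℕ → Type) [∀ k, Field (N k)] [∀ k, NumberField (N k)] :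
    Nonempty (Task N) :=
  ⟨⟨0, fun _ => 0, 0, fun i => i.elim0, fun i => i.elim0, fun i => i.elim0, fun g => by simp⟩⟩

/-- The field of a stage: it contains `N 0`, ..., `N s`. -/
theorem exists_E (hLE : Stmt_LEVE) (N : ℕ → Type) [∀ k, Field (N k)] [∀ k, NumberField (N k)]
    (s : ℕ) : ∃ (E : Type) (_ : Field E) (_ : NumberField E) (_ : IsGalois ℚ E) (l : ℕ),
      l.Prime ∧ Odd l ∧ 1 ≤ (1 / ((s : ℝ) + 1)) * l ∧
      ((Polynomial.X ^ l - Polynomial.C 2 : Polynomial ℚ).map (algebraMap ℚ E)).Splits ∧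
      (∃ i : E, i ^ 2 = -1) ∧ ∀ k ≤ s, Nonempty (N k →+* E) := by
  have h1 : ∀ s : ℕ, ∃ (M : Type) (_ : Field M) (_ : NumberField M),
      ∀ k ≤ s, Nonempty (N k →+* M) := by
    intro s
    induction s with
    | zero =>
      refine ⟨N 0, inferInstance, inferInstance, fun k hk => ?_⟩
      obtain rfl : k = 0 := by omega
      exact ⟨RingHom.id _⟩
    | succ s ih =>
      obtain ⟨M, _, _, hM⟩ := ih
      obtain ⟨M', _, _, aM, aN, _, _⟩ := SCOMP_thm M (N (s + 1))
      refine ⟨M', inferInstance, inferInstance, fun k hk => ?_⟩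
      rcases Nat.lt_or_ge k (s + 1) with h | h
      · obtain ⟨ι⟩ := hM k (by omega)
        exact ⟨(algebraMap M M').comp ι⟩
      · obtain rfl : k = s + 1 := by omega
        exact ⟨algebraMap _ M'⟩
  obtain ⟨M, _, _, hM⟩ := h1 s
  obtain ⟨l, hlge, hlp⟩ := Nat.exists_infinite_primes (s + 3)
  obtain ⟨E, _, _, aE, _, hsp, hi⟩ := hLE M l hlp.pos
  refine ⟨E, inferInstance, inferInstance, inferInstance, l, hlp,
    hlp.odd_of_ne_two (by omega), ?_, hsp, hi, fun k hk => ?_⟩
  · have h2 : ((s : ℝ) + 1) ≤ l := by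
      have : s + 1 ≤ l := by omega
      exact_mod_cast this
    rw [one_div, inv_mul_eq_div, one_le_div (by positivity)]
    exact h2
  · obtain ⟨ι⟩ := hM k hk
    exact ⟨(algebraMap M E).comp ι⟩

/-- The pairs of type (A), (B) at a level. -/
def Pr (T : Finset ℕ) (E : Type) [Field E] (M : LevE E) : Type :=
  {p : Σ H : Subgroup (M.N ≃ₐ[ℚ] M.N), (H →* ℂˣ) // TyQ T E p.1 p.2}

theorem pr_finite (T : Finset ℕ) (E : Type) [Field E] (M : LevE E) : Finite (Pr T E M) := by
  have h1 : ∀ (H : Subgroup (M.N ≃ₐ[ℚ] M.N)), Finite (H →* ℂˣ) := fun H => finite_hom H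
  unfold Pr
  infer_instance

/-- Stark's assertion for a pair. -/
def Pr.Good {T : Finset ℕ} {E : Type} [Field E] {M : LevE E} (p : Pr T E M) : Prop :=
  StarkLinear (IntermediateField.fixedField p.1.1) M.N (liftChar p.1.1 p.1.2)

/-- The trivial character of the trivial group is of type (A) if `√-1` is in `E`. -/
theorem tyAB_default (T : Finset ℕ) (E : Type) [Field E] [NumberField E] [IsGalois ℚ E]
    (hi : ∃ i : E, i ^ 2 = -1) :
    TyAB T E (N := E) (⊥ : Subgroup (E ≃ₐ[ℚ] E)) 1 := by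
  obtain ⟨i, hi⟩ := hi
  refine Or.inr ⟨fun c hc hcc => ?_, fun _ _ _ => rfl, fun _ _ _ _ => rfl⟩
  rw [Subgroup.mem_bot] at hc
  subst hc
  exact SMAIN.cc_i (E := E) (N := E) hi hcc rfl

/-- The conclusion for a pair or the default. -/
def Concl (T : Finset ℕ) (E : Type) [Field E] (ε : ℝ) (B : ℕ) (P : Prop) : Prop :=
  ∃ X : Fin 5 → SSQM.Ext,
    (∀ r, PairQ T E ε (X r).K (X r).L ∧ B ≤ Module.finrank ℚ (X r).K) ∧
      ((∀ r, StarkW.StarkFaith (X r).K (X r).L) → P)

theorem out_pr (hO : OutQ) (l : ℕ) (ε : ℝ) (hl : l.Prime) (hlo : Odd l) (hε : 0 < ε)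
    (hlε : 1 ≤ ε * l) (T : Finset ℕ) (E : Type) [Field E] [NumberField E]
    (hsp : ((Polynomial.X ^ l - Polynomial.C 2 : Polynomial ℚ).map (algebraMap ℚ E)).Splits)
    (M : LevE E) (p : Pr T E M) (B : ℕ) : Concl T E ε B p.Good :=
  hO l ε hl hlo hε hlε T E hsp M.N p.1.1 p.1.2 p.2 B

theorem out_default (hO : OutQ) (l : ℕ) (ε : ℝ) (hl : l.Prime) (hlo : Odd l) (hε : 0 < ε)
    (hlε : 1 ≤ ε * l) (T : Finset ℕ) (E : Type) [Field E] [NumberField E] [IsGalois ℚ E]
    (hsp : ((Polynomial.X ^ l - Polynomial.C 2 : Polynomial ℚ).map (algebraMap ℚ E)).Splits)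
    (hi : ∃ i : E, i ^ 2 = -1) (B : ℕ) : Concl T E ε B True := by
  obtain ⟨X, hX, -⟩ := hO l ε hl hlo hε hlε T E hsp E ⊥ 1 ⟨qe_bot _, tyAB_default T E hi⟩ B
  exact ⟨X, hX, fun _ => trivial⟩

theorem pair_mono {T T' : Finset ℕ} (hT : T' ⊆ T) {E E' : Type} [Field E] [Field E']
    (ι : E' →+* E) {ε ε' : ℝ} (hε : ε ≤ ε') {K L : Type} [Field K] [NumberField K]
    [Field L] [NumberField L] [Algebra K L] (h : Pair T E ε K L) : Pair T' E' ε' K L := by
  rcases h with h | h
  · exact Or.inl ⟨h.totallyComplex, h.cyclic, h.unrSplit.1,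
      fun w ⟨p, hp, hpp, hpw⟩ => h.unrSplit.2 w ⟨p, hT hp, hpp, hpw⟩⟩
  · refine Or.inr ⟨h.totallyComplex, h.cyclic, ?_, h.real.trans ?_⟩
    · obtain ⟨p, n, hp, ⟨M, _, _, aE, hG, hM⟩, hd⟩ := h.degree
      refine ⟨p, n, hp, ⟨M, inferInstance, inferInstance, ((algebraMap E M).comp ι).toAlgebra, hG,
        fun g => ?_⟩, hd⟩
      obtain ⟨k, hk⟩ := hM g
      exact ⟨k, fun x => hk (ι x)⟩
    · exact mul_le_mul_of_nonneg_right hε (Nat.cast_nonneg _)

theorem pairQ_mono {T T' : Finset ℕ} (hT : T' ⊆ T) {E E' : Type} [Field E] [Field E']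
    (ι : E' →+* E) {ε ε' : ℝ} (hε : ε ≤ ε') {K L : Type} [Field K] [NumberField K]
    [Field L] [NumberField L] [Algebra K L] (h : PairQ T E ε K L) : PairQ T' E' ε' K L := by
  refine ⟨pair_mono hT ι hε h.1, ?_⟩
  obtain ⟨M, _, _, hG, hQ, ⟨κ⟩⟩ := h.2
  exact ⟨M, inferInstance, inferInstance, hG, hQ, ⟨κ.comp ι⟩⟩

end StarkC.EXS
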