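import Pool.Agent.EXS.StE
import Pool.Agent.SSQ.BCX

/-!
# EXS, module BCX5: base change, five good characters of large degree
-/

set_option autoImplicit false

open NumberField IsDedekindDomain
open scoped TensorProduct Classical

namespace StarkC.EXS

namespace BCX5x

open SSQBCX

section lift

variable {F N N' : Type} [Field F] [NumberField F] [Field N] [NumberField N] [Field N']
  [NumberField N'] [Algebra F N] [Algebra N N'] [Algebra F N'] [IsScalarTower F N N']
  [IsGalois F N] [IsGalois F N']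

theorem isConj_rs (A : Subgroup (N' ≃ₐ[F] N')) (Φ : N' →+* ℂ)
    (c : N' ≃ₐ[IntermediateField.fixedField A] N') (hc : ComplexEmbedding.IsConj Φ c) :
    ComplexEmbedding.IsConj (Φ.comp (algebraMap N N')) (rs A c : N ≃ₐ[F] N) := by
  unfold ComplexEmbedding.IsConj at hc ⊢
  ext z
  have h1 := DFunLike.congr_fun hc (algebraMap N N' z)
  have h2 : Φ (c (algebraMap N N' z)) = Φ (algebraMap N N' ((rs A c : N ≃ₐ[F] N) z)) := by
    rw [rs_commutes]
  exact h1.trans h2

theorem good_ofE (T : Finset ℕ) (E : Type) [Field E] [Algebra E N] [Algebra E N']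
    [IsScalarTower E N N'] (A : Subgroup (N' ≃ₐ[F] N')) (ψ : (N ≃ₐ[F] N) →* ℂˣ)
    (hg : GoodE T E ψ) :
    GoodE T E (liftChar A
      ((ψ.comp (AlgEquiv.restrictNormalHom N : (N' ≃ₐ[F] N') →* (N ≃ₐ[F] N))).comp
        A.subtype)) := by
  set Ψ := liftChar A
      ((ψ.comp (AlgEquiv.restrictNormalHom N : (N' ≃ₐ[F] N') →* (N ≃ₐ[F] N))).comp
        A.subtype) with hΨ
  have hval : ∀ h : N' ≃ₐ[IntermediateField.fixedField A] N', Ψ h = ψ (rs A h) := fun h => rfl
  rcases hg with ⟨p, a, hp, hpow, hE, hcx⟩ | ⟨h1, h2, h3⟩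
  · left
    refine ⟨p, a, hp, ?_, ?_, ?_⟩
    · refine MonoidHom.ext fun g => ?_
      rw [MonoidHom.pow_apply, hval, ← MonoidHom.pow_apply, hpow]
      rfl
    · intro g
      obtain ⟨k, hk⟩ := hE (rs A g)
      refine ⟨k, fun x => ?_⟩
      rw [IsScalarTower.algebraMap_apply E N N', rs_commutes A (g ^ (p ^ k)), map_pow, hk x]
    · rcases hcx with h | ⟨hp2, hodd⟩
      · left
        exact isTotallyComplex_of_algebra F _
      · right
        refine ⟨hp2, fun Φ c hc => ?_⟩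
        rw [hval]
        exact hodd _ _ (isConj_rs A Φ c hc)
  · right
    refine ⟨isTotallyComplex_of_algebra F _, ?_, ?_⟩
    · intro w g hw
      rw [hval]
      apply h2 (w.under (𝓞 N))
      have hw' : FrobPow N' w 1 (((IntermediateField.subgroupEquivAlgEquiv A).symm g : A) :
          N' ≃ₐ[F] N') := by
        intro a b hab
        exact hw a b (by rw [hab, GOOD.symm_apply])
      exact RB.frob_restrict hw'
    · rintro w ⟨p, hp, hpp, hpw⟩ g hD
      rw [hval]
      refine h3 (w.under (𝓞 N)) ⟨p, hp, hpp, (RB.natCast_mem_under w p).2 hpw⟩ _ ?_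
      have hD' : Dec w (((IntermediateField.subgroupEquivAlgEquiv A).symm g : A) :
          N' ≃ₐ[F] N') := by
        intro a b hab
        exact hD a b (by rw [hab, GOOD.symm_apply])
      exact RB.dec_restrict hD'

/-- the degree of a fixed field -/
theorem index_le_finrank (A : Subgroup (N' ≃ₐ[F] N')) :
    A.index ≤ Module.finrank ℚ (IntermediateField.fixedField A) := by
  have h1 : Module.finrank F (IntermediateField.fixedField A) =
      (IntermediateField.fixedField A).fixingSubgroup.index :=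
    IntermediateField.finrank_eq_fixingSubgroup_index N' _
  rw [IntermediateField.fixingSubgroup_fixedField] at h1
  rw [← h1, ← Module.finrank_mul_finrank ℚ F (IntermediateField.fixedField A)]
  exact Nat.le_mul_of_pos_left _ Module.finrank_pos

end lift

theorem exists_primes (B : ℕ) : ∃ l₁ l₂ : ℕ, l₁.Prime ∧ l₂.Prime ∧ B ≤ l₁ ∧ B ≤ l₂ ∧
    ∃ x y : ℤ, x * l₁ + y * l₂ = 1 := by
  obtain ⟨l₁, h1, h1'⟩ := Nat.exists_infinite_primes B
  obtain ⟨l₂, h2, h2'⟩ := Nat.exists_infinite_primes (l₁ + 1)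
  refine ⟨l₁, l₂, h1', h2', h1, by omega, ?_⟩
  have h3 : Nat.Coprime l₁ l₂ := (Nat.coprime_primes h1' h2').2 (by omega)
  obtain ⟨x, y, hxy⟩ := Nat.isCoprime_iff_coprime.2 h3
  exact ⟨x, y, hxy⟩

end BCX5x

open SSQBCX BCX5x in
theorem BCX5_thm : Stmt_BCX5 := by
  intro hFM hIDN T E _ F N _ _ _ _ _ _ _ _ ψ hψ B
  obtain ⟨l₁, l₂, hl₁, hl₂, hB₁, hB₂, x, y, hxy⟩ := exists_primes B
  obtain ⟨q, N', _, _, _, _, ζ, κ, hq, hBq, hmq, hζ, hκ, htr⟩ := hFM N B (l₁ * l₂)
    (Nat.mul_pos hl₁.pos hl₂.pos)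
  have hfq : Fact q.Prime := ⟨hq⟩
  have hnq : NeZero q := ⟨hq.ne_zero⟩
  let _ : Algebra F N' := ((algebraMap N N').comp (algebraMap F N)).toAlgebra
  have hst : IsScalarTower F N N' := IsScalarTower.of_algebraMap_eq (fun _ => rfl)
  let _ : Algebra E N' := ((algebraMap N N').comp (algebraMap E N)).toAlgebra
  have hstE : IsScalarTower E N N' := IsScalarTower.of_algebraMap_eq (fun _ => rfl)
  have hgal : IsGalois F N' := IsGalois.tower_top_of_isGalois ℚ F N'
  have h2 : (2 : N') ≠ 0 := two_ne_zero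
  have hd₁ : l₁ ∣ q - 1 := (Dvd.intro _ rfl).trans hmq
  have hd₂ : l₂ ∣ q - 1 := (Dvd.intro_left _ rfl).trans hmq
  -- transitivity on the pairs of exponents, over `N`
  have hsur : ∀ (s : ZMod q) (t : (ZMod q)ˣ), ∃ h : N' ≃ₐ[N] N',
      aa (F := F) hζ hκ h2 (h.restrictScalars F) = s ∧
        hζ.autToPow F (h.restrictScalars F) = t := by
    intro s t
    obtain ⟨h, hh1, hh2⟩ := htr s.val (t : ZMod q).val (ZMod.val_coe_unit_coprime t)
    refine ⟨h, ?_, ?_⟩
    · rw [aa_eq hζ hκ h2 (h.restrictScalars F) s.val hh2, ZMod.natCast_zmod_val]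
    · apply Units.ext
      rw [bb_eq hζ (h.restrictScalars F) (t : ZMod q).val hh1, ZMod.natCast_zmod_val]
  let A0 : Subgroup (N' ≃ₐ[F] N') := MulAction.stabilizer (N' ≃ₐ[F] N') κ
  let C : ℕ → Subgroup (N' ≃ₐ[F] N') := fun l =>
    (powMonoidHom ((q - 1) / l) : (ZMod q)ˣ →* (ZMod q)ˣ).ker.comap (hζ.autToPow F)
  have hA0 : ∀ g, g ∈ A0 ↔ aa (F := F) hζ hκ h2 g = 0 := by
    intro g
    rw [aa_zero_iff]
    exact Iff.rfl
  have hC : ∀ l g, g ∈ C l ↔ hζ.autToPow F g ^ ((q - 1) / l) = 1 := fun l g => Iff.rfl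
  have hAC : ∀ l g, g ∈ A0 ⊓ C l ↔
      aa (F := F) hζ hκ h2 g = 0 ∧ hζ.autToPow F g ^ ((q - 1) / l) = 1 := by
    intro l g
    rw [Subgroup.mem_inf, hA0, hC]
  obtain ⟨i0, i1, i2, hid⟩ := hIDN (N' ≃ₐ[F] N') q (hζ.autToPow F) (aa (F := F) hζ hκ h2) l₁ l₂
    A0 (A0 ⊓ C l₁) (C l₁) (A0 ⊓ C l₂) (C l₂) (aa_mul hζ hκ h2) (fun s t => by
        obtain ⟨h, hh⟩ := hsur s t
        exact ⟨_, hh⟩) hd₁ hd₂ hA0 (hAC l₁) (hC l₁) (hAC l₂) (hC l₂)
  have hidx : ∀ l, (C l).index ≤ (A0 ⊓ C l).index := fun l =>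
    Nat.le_of_dvd (Nat.pos_of_ne_zero Subgroup.index_ne_zero_of_finite)
      (Subgroup.index_dvd_of_le inf_le_right)
  let A : Fin 5 → Subgroup (N' ≃ₐ[F] N') := ![A0, A0 ⊓ C l₁, C l₁, A0 ⊓ C l₂, C l₂]
  have hAidx : ∀ r, B ≤ (A r).index := by
    intro r
    fin_cases r
    · show B ≤ A0.index
      omega
    · show B ≤ (A0 ⊓ C l₁).index
      have := hidx l₁
      omega
    · show B ≤ (C l₁).index
      omega
    · show B ≤ (A0 ⊓ C l₂).index
      have := hidx l₂
      omega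
    · show B ≤ (C l₂).index
      omega
  refine ⟨N', inferInstance, inferInstance, inferInstance, inferInstance, inferInstance,
    inferInstance, inferInstance, inferInstance, inferInstance, A,
    fun r => (ψ.comp (AlgEquiv.restrictNormalHom N :
      (N' ≃ₐ[F] N') →* (N ≃ₐ[F] N))).comp (A r).subtype, ![1, -x, x, -y, y], ?_, ?_, ?_, ?_⟩
  · intro r h g hg
    show ψ (AlgEquiv.restrictNormalHom N (h : N' ≃ₐ[F] N')) = ψ g
    congr 1
    ext z
    apply (algebraMap N N').injective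
    rw [← hg z]
    exact AlgEquiv.restrictNormal_commutes (h : N' ≃ₐ[F] N') N z
  · intro r
    exact (hAidx r).trans (index_le_finrank (A r))
  · intro r
    exact good_ofE T E (A r) ψ hψ
  · intro g
    have h3 := hid x y hxy g
    rw [Fin.sum_univ_five]
    show ((1 : ℤ) : ℂ) * indFun A0 (fun _ => 1) g + ((-x : ℤ) : ℂ) * indFun (A0 ⊓ C l₁) (fun _ => 1) g
      + ((x : ℤ) : ℂ) * indFun (C l₁) (fun _ => 1) g
      + ((-y : ℤ) : ℂ) * indFun (A0 ⊓ C l₂) (fun _ => 1) g
      + ((y : ℤ) : ℂ) * indFun (C l₂) (fun _ => 1) g = 1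
    rw [indFun_one, indFun_one, indFun_one, indFun_one, indFun_one]
    push_cast
    linear_combination h3

end StarkC.EXS
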