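import Pool.Agent.EXS.StE

/-!
# A slowly growing level function, blocks of length five
-/

open Filter

namespace StarkC.EXS

theorem COMB5_thm : Stmt_COMB5 := by
  intro P hP g hg
  -- thresholds
  have hth : ∀ s : ℕ, ∃ b : ℕ, ∀ a ≥ b, 5 * (P s + P (s + 1)) + 9 ≤ g a := fun s =>
    (tendsto_atTop.1 hg (5 * (P s + P (s + 1)) + 9)).exists_forall_of_atTop
  choose b hb using hth
  -- the switch points
  let c : ℕ → ℕ := fun s => Nat.rec 0 (fun t ct => ct + P t + b (t + 1) + 1) s
  have c0 : c 0 = 0 := rfl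
  have cs : ∀ s, c (s + 1) = c s + P s + b (s + 1) + 1 := fun s => rfl
  have cmono : StrictMono c := strictMono_nat_of_lt_succ fun s => by rw [cs]; omega
  have hcb : ∀ s, 0 < s → b s ≤ c s := by
    intro s hs
    obtain ⟨t, rfl⟩ : ∃ t, s = t + 1 := ⟨s - 1, by omega⟩
    rw [cs]; omega
  have hex : ∀ m : ℕ, ∃ s, m < c (s + 1) := fun m => ⟨m, by
    have := cmono.id_le (m + 1)
    simp only [id] at this
    omega⟩
  let lev : ℕ → ℕ := fun m => Nat.find (hex m)
  have hlev : ∀ m s, c s ≤ m → m < c (s + 1) → lev m = s := by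
    intro m s h1 h2
    refine (Nat.find_eq_iff (hex m)).2 ⟨h2, fun t ht h3 => ?_⟩
    have := cmono.monotone (show t + 1 ≤ s by omega)
    omega
  have hlev2 : ∀ m, c (lev m) ≤ m ∧ m < c (lev m + 1) := by
    intro m
    refine ⟨?_, Nat.find_spec (hex m)⟩
    rcases Nat.eq_zero_or_pos (lev m) with h | h
    · rw [h, c0]; exact Nat.zero_le _
    · by_contra hc
      have h3 : m < c (lev m - 1 + 1) := by
        rw [Nat.sub_add_cancel h]; omega
      exact Nat.find_min (hex m) (m := lev m - 1) (by show lev m - 1 < lev m; omega) h3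
  refine ⟨lev, ?_, ?_⟩
  · refine tendsto_atTop.2 fun s => ?_
    filter_upwards [eventually_ge_atTop (c s)] with m hm
    by_contra hlt
    have h1 := (hlev2 m).2
    have h2 := cmono.monotone (show lev m + 1 ≤ s by omega)
    omega
  · intro J hJ s₀
    obtain ⟨a, ha, ha2⟩ := (hJ.and_eventually (eventually_ge_atTop (5 * c (s₀ + 1) + 5))).exists
    -- the first full block
    obtain ⟨m₀, hm1, hm2⟩ : ∃ m₀, a ≤ 5 * m₀ ∧ 5 * m₀ < a + 5 := ⟨(a + 4) / 5, by omega, by omega⟩
    have hm3 : c (s₀ + 1) ≤ m₀ := by omega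
    set s := lev m₀ with hs
    have hs1 := hlev2 m₀
    rw [← hs] at hs1
    have hs0 : s₀ + 1 ≤ s := by
      by_contra hlt
      have h2 := cmono.monotone (show s + 1 ≤ s₀ + 1 by omega)
      omega
    have hga : 5 * (P s + P (s + 1)) + 9 ≤ g a := by
      refine hb s a ?_
      have h1 := hcb s (by omega)
      omega
    -- residues
    have hres : ∀ (p q i : ℕ), 0 < q → i < q → ∃ m, p ≤ m ∧ m < p + q ∧ m % q = i := by
      intro p q i hq hi
      refine ⟨p + (i + (q - p % q)) % q, by omega, ?_, ?_⟩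
      · have := Nat.mod_lt (i + (q - p % q)) hq
        omega
      · have h1 := Nat.mod_lt p hq
        rw [Nat.add_mod, Nat.mod_mod, ← Nat.add_mod, ← Nat.mod_add_mod p q,
          show p % q + (i + (q - p % q)) = i + q by omega, Nat.add_mod_right,
          Nat.mod_eq_of_lt hi]
    rcases le_or_gt (m₀ + P s) (c (s + 1)) with hle | hgt
    · refine ⟨s, by omega, fun i hi => ?_⟩
      obtain ⟨m, h1, h2, h3⟩ := hres m₀ (P s) i (hP s) hi
      refine ⟨m, hlev m s (by omega) (by omega), h3, fun r hr => ha _ (by omega) (by omega)⟩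
    · refine ⟨s + 1, by omega, fun i hi => ?_⟩
      obtain ⟨m, h1, h2, h3⟩ := hres (c (s + 1)) (P (s + 1)) i (hP (s + 1)) hi
      have h4 := cs (s + 1)
      refine ⟨m, hlev m (s + 1) (by omega) (by omega), h3, fun r hr => ha _ (by omega) (by omega)⟩

end StarkC.EXS
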