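import Pool.Agent.EXS.StE

/-!
Project EXS (MP_46b841_nt), module DECE: the decomposition at one level, and the fields of a level.
-/

open NumberField IsDedekindDomain
open scoped TensorProduct Classical

namespace StarkC.EXS

theorem LEVE_thm : Stmt_LEVE := by
  intro E₀ _ _ l hl
  exact SMAIN.exists_E' E₀ l hl

theorem DECE_thm : Stmt_DECE := by
  intro T E _ _ _ hi L _ _ _ f hf
  obtain ⟨N₁, iF1, iN1, aL1, aE1, iG1, hN₁⟩ := (SSPANZ_thm SFULL.sspan SCOMP_thm) T E L f hf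
  obtain ⟨N, iF, iN, aN, aE, iG, hN⟩ :=
    SMAIN.span_FM SCOMP_thm (STY1_thm AR2_thm AR3_thm) T E N₁ hi hN₁
  let aL : Algebra L N := ((algebraMap N₁ N).comp (algebraMap L N₁)).toAlgebra
  refine ⟨N, iF, iN, aL, aE, iG, ?_⟩
  have e : (fun g : N ≃ₐ[ℚ] N => f (AlgEquiv.restrictNormalHom L g)) =
      fun g : N ≃ₐ[ℚ] N => f (AlgEquiv.restrictNormalHom L
        (AlgEquiv.restrictNormalHom N₁ g : N₁ ≃ₐ[ℚ] N₁)) := by
    funext g
    rw [SSPANZ.res_res (L := L) (N := N₁) (N' := N) (fun x => rfl)]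
  rw [e]
  refine Submodule.span_mono ?_ hN
  rintro _ ⟨⟨⟨H', ψ'⟩, h⟩, rfl⟩
  exact ⟨⟨⟨H', ψ'⟩, or_assoc.2 h⟩, rfl⟩

end StarkC.EXS
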