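import Pool.Agent.EXS.StE
import Pool.Agent.SSQ.FLD

/-!
# The field cut out by a good character is a good pair

Project EXS (MP_46b841_nt), module FLDE.
-/

open NumberField IsDedekindDomain
open scoped TensorProduct Classical

namespace StarkC.EXS

namespace FLDEaux

/-- A finite group with an injective linear character is cyclic. -/
theorem cyclic_of_char {G : Type} [Group G] [Finite G] (ψ : G →* ℂˣ)
    (h : Function.Injective ψ) : IsCyclic G :=
  isCyclic_of_injective_ringHom ((Units.coeHom ℂ).comp ψ) (Units.val_injective.comp h)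

/-- An extension of a totally complex field is totally complex. -/
theorem totallyComplex_up (F L : Type) [Field F] [NumberField F] [Field L] [NumberField L]
    [Algebra F L] (h : IsTotallyComplex F) : IsTotallyComplex L := by
  refine ⟨fun v => ?_⟩
  have h1 := h.isComplex (v.comap (algebraMap F L))
  by_contra h2
  rw [InfinitePlace.not_isComplex_iff_isReal] at h2
  exact (InfinitePlace.not_isReal_iff_isComplex.2 h1) (h2.comap _)

/-- A number field with a character which is `-1` at all complex conjugations is totally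
complex. -/
theorem totallyComplex_odd (F L : Type) [Field F] [NumberField F] [Field L] [NumberField L]
    [Algebra F L] (ψ : (L ≃ₐ[F] L) →* ℂˣ)
    (h : ∀ (Φ : L →+* ℂ) (c : L ≃ₐ[F] L), ComplexEmbedding.IsConj Φ c → (ψ c : ℂ) = -1) :
    IsTotallyComplex L := by
  refine ⟨fun v => ?_⟩
  by_contra h2
  rw [InfinitePlace.not_isComplex_iff_isReal, InfinitePlace.isReal_iff] at h2
  have h3 := h v.embedding 1 (ComplexEmbedding.isConj_one_iff.2 h2)
  rw [map_one, Units.val_one] at h3
  norm_num at h3

/-- A finite cyclic group with an injective character of order dividing `m` has order dividing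
`m`. -/
theorem card_dvd {G : Type} [Group G] [Finite G] (ψ : G →* ℂˣ) (h : Function.Injective ψ) {m : ℕ}
    (hm : ψ ^ m = 1) : Nat.card G ∣ m := by
  have hc := cyclic_of_char ψ h
  rw [← IsCyclic.exponent_eq_card (α := G)]
  refine Monoid.exponent_dvd_of_forall_pow_eq_one fun g => h ?_
  rw [map_pow, map_one]
  have h1 := DFunLike.congr_fun hm g
  rwa [MonoidHom.pow_apply, MonoidHom.one_apply] at h1

end FLDEaux

open FLDEaux

theorem FLDE_thm : Stmt_FLDE := by
  intro l ε hl hodd hε hεl T E _ _ hs F N _ _ _ _ _ _ _ ψ hgood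
  obtain ⟨L, iF, iNF, aFL, aLN, tow, hG, ψ', hinj, hψ'⟩ := FAITH.exists_field F N ψ
  have hgal : IsGalois L N := IsGalois.tower_top_of_isGalois F L N
  refine ⟨L, iF, iNF, aFL, aLN, tow, hG, ψ', hinj, hψ', ?_⟩
  rcases hgood with ⟨p, a, hp, hpa, hE, hcase⟩ | ⟨hF, h1, h2⟩
  · right
    have hdeg : Module.finrank F L ∣ p ^ a := by
      rw [← IsGalois.card_aut_eq_finrank F L]
      exact card_dvd ψ' hinj (SFAITH.pow_down F L N hψ' hpa)
    obtain ⟨n, -, hn⟩ := (Nat.dvd_prime_pow hp).1 hdeg
    refine ⟨?_, cyclic_of_char ψ' hinj,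
      ⟨p, n, hp, ⟨N, inferInstance, inferInstance, inferInstance, inferInstance, hE⟩, hn⟩, ?_⟩
    · rcases hcase with hF | ⟨-, ho⟩
      · exact totallyComplex_up F L hF
      · exact totallyComplex_odd F L ψ' (SFAITH.odd_down F L N hψ' ho)
    · rcases hcase with hF | ⟨rfl, -⟩
      · have h0 : InfinitePlace.nrRealPlaces F = 0 := by
          rw [InfinitePlace.nrRealPlaces, Fintype.card_eq_zero_iff]
          exact ⟨fun v => (InfinitePlace.not_isReal_iff_isComplex.2 (hF.isComplex v.1)) v.2⟩
        rw [h0, Nat.cast_zero]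
        positivity
      · have h3 := SEPS_thm l hl hodd E F N hs hE
        have h4 : (0 : ℝ) ≤ (InfinitePlace.nrRealPlaces F : ℝ) := Nat.cast_nonneg _
        calc (InfinitePlace.nrRealPlaces F : ℝ) = InfinitePlace.nrRealPlaces F * 1 := by ring
          _ ≤ InfinitePlace.nrRealPlaces F * (ε * l) := by gcongr
          _ = ε * (InfinitePlace.nrRealPlaces F * l) := by ring
          _ ≤ ε * (Module.finrank ℚ F : ℝ) := by gcongr
  · left
    refine ⟨hF, cyclic_of_char ψ' hinj, ?_, ?_⟩
    · intro w g hg
      obtain ⟨W, rfl⟩ := FAITH.exists_above (N := N) w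
      obtain ⟨g', hg', hF'⟩ := LINF.lift_frobPow (K := F) W 0 g (by rwa [pow_zero])
      rw [pow_zero] at hF'
      apply hinj
      rw [map_one, ← hg', hψ']
      exact h1 W g' hF'
    · intro w hw g hg
      obtain ⟨W, rfl⟩ := FAITH.exists_above (N := N) w
      obtain ⟨g₁, hg₁⟩ := AlgEquiv.restrictNormalHom_surjective (F := F) (K₁ := L) N g
      obtain ⟨τ, hτ⟩ := UREAL.trans (L := L) (STB.mv (g₁ : N ≃+* N) W) W (by
        rw [RB.mv_under, hg₁]
        exact (RB.dec_iff _ _).1 hg)
      have h3 : AlgEquiv.restrictNormalHom L (τ.restrictScalars F) = (1 : L ≃ₐ[F] L) :=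
        SSQFLD.res_restrictScalars τ
      have h4 : Dec W (τ.restrictScalars F * g₁ : N ≃ₐ[F] N) := by
        rw [RB.dec_iff, RB.mv_mul]
        exact hτ
      obtain ⟨p, hp, hpp, hpw⟩ := hw
      have h5 := h2 W ⟨p, hp, hpp, by rwa [RB.natCast_mem_under] at hpw⟩ _ h4
      apply hinj
      rw [map_one, ← hg₁]
      have h6 : (AlgEquiv.restrictNormalHom L g₁ : L ≃ₐ[F] L) =
          AlgEquiv.restrictNormalHom L (τ.restrictScalars F * g₁) := by
        rw [map_mul, h3, one_mul]
      rw [h6, hψ']
      exact h5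

end StarkC.EXS
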