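import Pool.Agent.EXS.StE

/-!
# From subgroups of the Galois group over the rational numbers to the relative form (module GCE)
-/

open NumberField IsDedekindDomain
open scoped TensorProduct Classical

namespace StarkC.EXS

theorem GCE_thm : Stmt_GCE := by
  intro N _ _ _ T E _ _ H ψ h
  rcases h with ⟨q, hq, ⟨⟨a, ha⟩, h5⟩, h4⟩ | ⟨h4, h5, h6⟩
  · refine Or.inl ⟨q, a, hq, SMAIN.pow_lift ha, SMAIN.pow_symm H h5, ?_⟩
    rcases h4 with h4 | ⟨rfl, h4⟩
    · exact Or.inl (GOOD.totallyComplex H h4)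
    · refine Or.inr ⟨rfl, fun Φ c hc => ?_⟩
      exact h4 _ ⟨Φ, GOOD.isConj_symm H c Φ hc⟩
  · refine Or.inr ⟨GOOD.totallyComplex H h4, ?_, ?_⟩
    · intro w g hg
      refine h5 w _ ?_
      show FrobPow N w 1 ((((IntermediateField.subgroupEquivAlgEquiv H).symm g : H) :
        N ≃ₐ[ℚ] N) : N → N)
      rw [SMAIN.symm_fun]
      exact hg
    · intro w hw g hg
      refine h6 w hw _ ?_
      show Dec w ((((IntermediateField.subgroupEquivAlgEquiv H).symm g : H) :
        N ≃ₐ[ℚ] N) : N → N)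
      rw [SMAIN.symm_fun]
      exact hg

end StarkC.EXS
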