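import Pool.Agent.EXS.StE

/-!
# The integral relation of permutation characters with five subgroups (module IDN5)
-/

set_option autoImplicit false

namespace StarkC.EXS

namespace EXSIDN

open SSQ SSQ.SSQIDN

section

variable {G : Type} [Group G] [Fintype G] {q : ℕ} [Fact q.Prime] {b : G →* (ZMod q)ˣ}
  {a : G → ZMod q}

/-- the number of the elements of `(ZMod q)ˣ` whose power is `1` -/
lemma card_pow (l : ℕ) (hl : l ∣ q - 1) :
    Nat.card {t : (ZMod q)ˣ // t ^ ((q - 1) / l) = 1} = (q - 1) / l := by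
  have h1 := IsCyclic.card_powMonoidHom_ker (G := (ZMod q)ˣ) ((q - 1) / l)
  have h2 : Nat.card (ZMod q)ˣ = q - 1 := by
    rw [Nat.card_eq_fintype_card, ZMod.card_units]
  rw [h2, Nat.gcd_eq_right (Nat.div_dvd_of_dvd hl)] at h1
  refine Eq.trans ?_ h1
  exact Nat.card_congr (Equiv.subtypeEquivRight fun t => Iff.rfl)

lemma n_pos (h : ∀ g h, a (g * h) = a g + (b g : ZMod q) * a h) :
    0 < Nat.card {x : G // a x = 0 ∧ b x = 1} := by
  rw [Nat.card_pos_iff]
  exact ⟨⟨⟨1, a_one h, map_one b⟩⟩, inferInstance⟩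

omit [Fintype G] in
lemma index_of_card {A : Subgroup G} {k : ℕ} (hm : 0 < Nat.card A)
    (hk : Nat.card G = Nat.card A * k) : A.index = k := by
  have h1 := A.card_mul_index
  rw [hk] at h1
  exact Nat.eq_of_mul_eq_mul_left hm h1

/-- the orders of the subgroups given by a condition on `b` -/
lemma card_big (h : ∀ g h, a (g * h) = a g + (b g : ZMod q) * a h)
    (hs : ∀ (s : ZMod q) (t : (ZMod q)ˣ), ∃ g, a g = s ∧ b g = t) {l : ℕ} (hl : l ∣ q - 1)
    {A₂ : Subgroup G} (h2 : ∀ g, g ∈ A₂ ↔ b g ^ ((q - 1) / l) = 1) :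
    Nat.card A₂ = (q - 1) / l * (q * Nat.card {x : G // a x = 0 ∧ b x = 1}) := by
  rw [← card_pow l hl, ← sumfib2 b (fun t => t ^ ((q - 1) / l) = 1) _ (fibB h hs)]
  exact Nat.card_congr (Equiv.subtypeEquivRight h2)

lemma card_small (h : ∀ g h, a (g * h) = a g + (b g : ZMod q) * a h)
    (hs : ∀ (s : ZMod q) (t : (ZMod q)ˣ), ∃ g, a g = s ∧ b g = t) {l : ℕ} (hl : l ∣ q - 1)
    {A₁ : Subgroup G} (h1 : ∀ g, g ∈ A₁ ↔ a g = 0 ∧ b g ^ ((q - 1) / l) = 1) :
    Nat.card A₁ = (q - 1) / l * Nat.card {x : G // a x = 0 ∧ b x = 1} := by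
  have e0 : ∀ p : ZMod q × (ZMod q)ˣ, Nat.card {x : G // (fun x => (a x, b x)) x = p} =
      Nat.card {x : G // a x = 0 ∧ b x = 1} := by
    intro p
    rw [← fib h hs p.1 p.2]
    exact Nat.card_congr (Equiv.subtypeEquivRight fun x => Prod.ext_iff)
  have e1 : Nat.card {x : G // a x = 0 ∧ b x ^ ((q - 1) / l) = 1} =
      Nat.card {p : ZMod q × (ZMod q)ˣ // p.1 = 0 ∧ p.2 ^ ((q - 1) / l) = 1} *
        Nat.card {x : G // a x = 0 ∧ b x = 1} :=
    sumfib2 (fun x => (a x, b x))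
      (fun p : ZMod q × (ZMod q)ˣ => p.1 = 0 ∧ p.2 ^ ((q - 1) / l) = 1) _ e0
  have e2 : Nat.card {p : ZMod q × (ZMod q)ˣ // p.1 = 0 ∧ p.2 ^ ((q - 1) / l) = 1} =
      Nat.card {t : (ZMod q)ˣ // t ^ ((q - 1) / l) = 1} := by
    refine Nat.card_congr
      { toFun := fun p => ⟨p.1.2, p.2.2⟩
        invFun := fun t => ⟨(0, t.1), rfl, t.2⟩
        left_inv := ?_
        right_inv := fun _ => rfl }
    rintro ⟨⟨s, t⟩, hs, ht⟩
    dsimp only at hs
    subst hs
    rfl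
  rw [← card_pow l hl, ← e2, ← e1]
  exact Nat.card_congr (Equiv.subtypeEquivRight h1)

lemma qC : (q : ℂ) ≠ 0 := Nat.cast_ne_zero.2 (Fact.out : q.Prime).ne_zero

lemma ind1_zero (h : ∀ g h, a (g * h) = a g + (b g : ZMod q) * a h)
    (hs : ∀ (s : ZMod q) (t : (ZMod q)ˣ), ∃ g, a g = s ∧ b g = t) {A₀ : Subgroup G}
    (h0 : ∀ g, g ∈ A₀ ↔ a g = 0) (g : G) :
    ind1 A₀ g = (Nat.card {s : ZMod q // a g + ((b g : ZMod q) - 1) * s = 0} : ℂ) := by
  have hq : q.Prime := Fact.out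
  have hnpos := n_pos h
  have cA0 : Nat.card A₀ = (q - 1) * Nat.card {x : G // a x = 0 ∧ b x = 1} := by
    rw [← fibA h hs 0]
    exact Nat.card_congr (Equiv.subtypeEquivRight h0)
  have e1 : Nat.card {x : G // x⁻¹ * g * x ∈ A₀} =
      Nat.card {x : G // a g + ((b g : ZMod q) - 1) * a x = 0} := by
    refine Nat.card_congr (Equiv.subtypeEquivRight fun x => ?_)
    rw [h0, a_conj_zero h]
  unfold ind1
  rw [e1, cnt h hs (fun s => a g + ((b g : ZMod q) - 1) * s = 0), cA0, Nat.cast_mul,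
    mul_div_assoc, div_self, mul_one]
  have : 0 < (q - 1) * Nat.card {x : G // a x = 0 ∧ b x = 1} :=
    Nat.mul_pos (by have := hq.one_lt; omega) hnpos
  exact_mod_cast this.ne'

/-- the difference for one divisor `l` -/
lemma diff (h : ∀ g h, a (g * h) = a g + (b g : ZMod q) * a h)
    (hs : ∀ (s : ZMod q) (t : (ZMod q)ˣ), ∃ g, a g = s ∧ b g = t) {l : ℕ} (hl : l ∣ q - 1)
    {A₁ A₂ : Subgroup G} (h1 : ∀ g, g ∈ A₁ ↔ a g = 0 ∧ b g ^ ((q - 1) / l) = 1)
    (h2 : ∀ g, g ∈ A₂ ↔ b g ^ ((q - 1) / l) = 1) (g : G) :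
    ind1 A₁ g - ind1 A₂ g = if b g ^ ((q - 1) / l) = 1 then
      (l : ℂ) * ((Nat.card {s : ZMod q // a g + ((b g : ZMod q) - 1) * s = 0} : ℂ) - 1) else 0 := by
  classical
  have hq : q.Prime := Fact.out
  have hq1 : 0 < q - 1 := by have := hq.one_lt; omega
  obtain ⟨m, hm⟩ := hl
  have hlpos : 0 < l := Nat.pos_of_ne_zero (by rintro rfl; omega)
  have hmpos : 0 < m := Nat.pos_of_ne_zero (by rintro rfl; omega)
  have hdiv : (q - 1) / l = m := by rw [hm]; exact Nat.mul_div_cancel_left m hlpos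
  have hnpos := n_pos h
  set n := Nat.card {x : G // a x = 0 ∧ b x = 1} with hn
  have cA1 : Nat.card A₁ = m * n := by
    rw [card_small h hs ⟨m, hm⟩ h1, hdiv]
  have cA2 : Nat.card A₂ = m * (q * n) := by
    rw [card_big h hs ⟨m, hm⟩ h2, hdiv]
  have cG : Nat.card G = q * ((l * m) * n) := by
    rw [cardG h hs, ← hn, hm]
  have hnC : (n : ℂ) ≠ 0 := Nat.cast_ne_zero.2 hnpos.ne'
  have hmC : (m : ℂ) ≠ 0 := Nat.cast_ne_zero.2 hmpos.ne'
  have hqC : (q : ℂ) ≠ 0 := Nat.cast_ne_zero.2 hq.ne_zero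
  split_ifs with hb
  · have e1 : Nat.card {x : G // x⁻¹ * g * x ∈ A₁} =
        Nat.card {x : G // a g + ((b g : ZMod q) - 1) * a x = 0} := by
      refine Nat.card_congr (Equiv.subtypeEquivRight fun x => ?_)
      rw [h1, b_conj, a_conj_zero h]
      exact and_iff_left hb
    have e2 : Nat.card {x : G // x⁻¹ * g * x ∈ A₂} = Nat.card G := by
      refine Nat.card_congr (Equiv.subtypeUnivEquiv fun x => ?_)
      rw [h2, b_conj]
      exact hb
    unfold ind1
    rw [e1, e2, cnt h hs (fun s => a g + ((b g : ZMod q) - 1) * s = 0), cA1, cA2, cG, ← hn, hm]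
    push_cast
    field_simp
  · have e1 : Nat.card {x : G // x⁻¹ * g * x ∈ A₁} = 0 := by
      have : IsEmpty {x : G // x⁻¹ * g * x ∈ A₁} := by
        refine ⟨fun x => hb ?_⟩
        have := ((h1 _).1 x.2).2
        rwa [b_conj] at this
      exact Nat.card_of_isEmpty
    have e2 : Nat.card {x : G // x⁻¹ * g * x ∈ A₂} = 0 := by
      have : IsEmpty {x : G // x⁻¹ * g * x ∈ A₂} := by
        refine ⟨fun x => hb ?_⟩
        have := (h2 _).1 x.2
        rwa [b_conj] at this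
      exact Nat.card_of_isEmpty
    unfold ind1
    rw [e1, e2, Nat.cast_zero, zero_div, zero_div, sub_zero]

omit [Fintype G] in
/-- the number of the solutions is `1` if `b g` is not `1` -/
lemma card_one {g : G} (hb : b g ≠ 1) :
    Nat.card {s : ZMod q // a g + ((b g : ZMod q) - 1) * s = 0} = 1 := by
  have hb' : (b g : ZMod q) - 1 ≠ 0 := by
    intro h3
    apply hb
    apply Units.ext
    rw [Units.val_one]
    linear_combination h3
  rw [Nat.card_eq_one_iff_unique]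
  constructor
  · constructor
    rintro ⟨x, hx⟩ ⟨y, hy⟩
    apply Subtype.ext
    have h3 : ((b g : ZMod q) - 1) * (x - y) = 0 := by linear_combination hx - hy
    rcases mul_eq_zero.1 h3 with h4 | h4
    · exact absurd h4 hb'
    · exact sub_eq_zero.1 h4
  · refine ⟨⟨-(a g) / ((b g : ZMod q) - 1), ?_⟩⟩
    rw [mul_div_cancel₀ _ hb']
    ring

/-- the difference, once more -/
lemma diff2 (h : ∀ g h, a (g * h) = a g + (b g : ZMod q) * a h)
    (hs : ∀ (s : ZMod q) (t : (ZMod q)ˣ), ∃ g, a g = s ∧ b g = t) {l : ℕ} (hl : l ∣ q - 1)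
    {A₁ A₂ : Subgroup G} (h1 : ∀ g, g ∈ A₁ ↔ a g = 0 ∧ b g ^ ((q - 1) / l) = 1)
    (h2 : ∀ g, g ∈ A₂ ↔ b g ^ ((q - 1) / l) = 1) (g : G) :
    ind1 A₁ g - ind1 A₂ g =
      (l : ℂ) * ((Nat.card {s : ZMod q // a g + ((b g : ZMod q) - 1) * s = 0} : ℂ) - 1) := by
  rw [diff h hs hl h1 h2 g]
  split_ifs with hb
  · rfl
  · have hb' : b g ≠ 1 := by
      intro h3
      exact hb (by rw [h3, one_pow])
    rw [card_one hb', Nat.cast_one, sub_self, mul_zero]

end

end EXSIDN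

open SSQ SSQ.SSQIDN EXSIDN in
theorem IDN5_thm : Stmt_IDN5 := by
  intro G _ _ q _ b a l₁ l₂ A₀ A₁ A₂ A₃ A₄ h hs hl1 hl2 h0 h1 h2 h3 h4
  have hq : q.Prime := Fact.out
  have hq1 : 0 < q - 1 := by have := hq.one_lt; omega
  have hnpos := n_pos h
  set n := Nat.card {x : G // a x = 0 ∧ b x = 1} with hn
  have hidx : ∀ (l : ℕ) (A : Subgroup G), l ∣ q - 1 →
      (∀ g, g ∈ A ↔ b g ^ ((q - 1) / l) = 1) → A.index = l := by
    intro l A hl hA
    have hc := card_big h hs hl hA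
    obtain ⟨m, hm⟩ := hl
    have hlpos : 0 < l := Nat.pos_of_ne_zero (by rintro rfl; omega)
    have hmpos : 0 < m := Nat.pos_of_ne_zero (by rintro rfl; omega)
    have hdiv : (q - 1) / l = m := by rw [hm]; exact Nat.mul_div_cancel_left m hlpos
    rw [hdiv, ← hn] at hc
    refine index_of_card ?_ ?_
    · rw [hc]
      exact Nat.mul_pos hmpos (Nat.mul_pos hq.pos hnpos)
    · rw [hc, cardG h hs, ← hn, hm]
      ring
  refine ⟨?_, hidx l₁ A₂ hl1 h2, hidx l₂ A₄ hl2 h4, fun x y hxy g => ?_⟩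
  · have cA0 : Nat.card A₀ = (q - 1) * n := by
      rw [hn, ← fibA h hs 0]
      exact Nat.card_congr (Equiv.subtypeEquivRight h0)
    refine index_of_card ?_ ?_
    · rw [cA0]
      exact Nat.mul_pos hq1 hnpos
    · rw [cA0, cardG h hs, ← hn]
      ring
  · rw [diff2 h hs hl1 h1 h2 g, diff2 h hs hl2 h3 h4 g, ind1_zero h hs h0 g]
    have hxyC : (x : ℂ) * (l₁ : ℂ) + (y : ℂ) * (l₂ : ℂ) = 1 := by exact_mod_cast hxy
    linear_combination (1 -
      (Nat.card {s : ZMod q // a g + ((b g : ZMod q) - 1) * s = 0} : ℂ)) * hxyC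

end StarkC.EXS
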