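import Pool.Agent.EXS.SEQ1

/-!
# The sequence
-/

open NumberField IsDedekindDomain Filter
open scoped TensorProduct Classical

namespace StarkC.EXS

variable {N : ℕ → Type} [∀ k, Field (N k)] [∀ k, NumberField (N k)] [∀ k, IsGalois ℚ (N k)]

/-- The combination `t` is decomposed at the level `M`. -/
def DecAt (T : Finset ℕ) (E : Type) [Field E] (t : Task N) (M : LevE E) : Prop :=
  ∃ _ : Algebra (N t.1) M.N,
    (fun g : M.N ≃ₐ[ℚ] M.N => t.2.1 (AlgEquiv.restrictNormalHom (N t.1) g)) ∈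
      CMB.GS (G := M.N ≃ₐ[ℚ] M.N) (fun H ψ => TyQ T E H ψ ∨ Ty3 H ψ)

/-- The data of a stage. -/
structure Stg (N : ℕ → Type) [∀ k, Field (N k)] [∀ k, NumberField (N k)]
    [∀ k, IsGalois ℚ (N k)] (s : ℕ) where
  E : Type
  [fE : Field E]
  [nE : NumberField E]
  emb : ∀ k ≤ s, Nonempty (N k →+* E)
  M : Task N → LevE E
  dec : ∀ t : Task N, DecAt (Finset.range s) E t (M t)
  out : ∀ (t : Task N) (p : Pr (Finset.range s) E (M t)) (B : ℕ),
    Concl (Finset.range s) E (1 / ((s : ℝ) + 1)) B p.Good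
  dft : ∀ B : ℕ, Concl (Finset.range s) E (1 / ((s : ℝ) + 1)) B True

attribute [instance] Stg.fE Stg.nE

theorem exists_stg (hLE : Stmt_LEVE) (hD : DecQ) (hO : OutQ) (s : ℕ) :
    Nonempty (Stg N s) := by
  obtain ⟨E, _, _, _, l, hl, hlo, hlε, hsp, hi, hemb⟩ := exists_E hLE N s
  have hε : (0 : ℝ) < 1 / ((s : ℝ) + 1) := by positivity
  have h1 : ∀ t : Task N, ∃ M : LevE E, DecAt (Finset.range s) E t M := by
    intro t
    obtain ⟨N', _, _, aN, aE, _, h⟩ := hD (Finset.range s) E hi (N t.1) t.2.1 t.2.2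
    exact ⟨⟨N'⟩, aN, h⟩
  choose M hM using h1
  exact ⟨⟨E, hemb, M, hM, fun t p B => out_pr hO l _ hl hlo hε hlε _ E hsp (M t) p B,
    fun B => out_default hO l _ hl hlo hε hlε _ E hsp hi B⟩⟩

/-- The pairs of a stage and a default. -/
def Fm (tk : ℕ → Task N) {s : ℕ} (S : Stg N s) : Type :=
  Option (Σ i : Fin (s + 1), Pr (Finset.range s) S.E (S.M (tk i)))

theorem fm_finite (tk : ℕ → Task N) {s : ℕ} (S : Stg N s) : Finite (Fm tk S) := by
  have h1 : ∀ i : Fin (s + 1), Finite (Pr (Finset.range s) S.E (S.M (tk i))) :=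
    fun i => pr_finite _ _ _
  unfold Fm
  infer_instance

theorem fm_nonempty (tk : ℕ → Task N) {s : ℕ} (S : Stg N s) : Nonempty (Fm tk S) := ⟨none⟩

/-- Stark's assertion for a member of the family. -/
def FmGood (tk : ℕ → Task N) {s : ℕ} (S : Stg N s) (x : Fm tk S) : Prop :=
  ∀ p : Σ i : Fin (s + 1), Pr (Finset.range s) S.E (S.M (tk i)), x = some p → p.2.Good

theorem fm_out (tk : ℕ → Task N) {s : ℕ} (S : Stg N s) (x : Fm tk S) (B : ℕ) :
    Concl (Finset.range s) S.E (1 / ((s : ℝ) + 1)) B (FmGood tk S x) := by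
  match x with
  | none =>
    obtain ⟨X, hX, -⟩ := S.dft B
    exact ⟨X, hX, fun _ p hp => absurd hp (Option.some_ne_none p).symm⟩
  | some p =>
    obtain ⟨X, hX, h1⟩ := S.out (tk p.1) p.2 B
    refine ⟨X, hX, fun hf q hq => ?_⟩
    have e := Option.some.inj hq
    subst e
    exact h1 hf

/-- The combination `t` is decomposed at a level at which Stark's assertion holds for all pairs of
type (A), (B). -/
def Solved (t : Task N) : Prop :=
  ∃ (T : Finset ℕ) (E : Type) (_ : Field E) (M : LevE E), DecAt T E t M ∧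
    ∀ p : Pr T E M, p.Good

/-- The sequence of extensions. -/
theorem seq (hLE : Stmt_LEVE) (hD : DecQ) (hO : OutQ) (hC : Stmt_COMB5)
    (hcof : ∀ (M : Type) [Field M] [NumberField M], ∃ k, Nonempty (M →+* N k))
    (F g : ℕ → ℕ) (hg : Tendsto g atTop atTop) :
    ∃ Y : ℕ → SSQM.Ext,
      (∀ j, F j ≤ Module.finrank ℚ (Y j).K ∧ PairQ ∅ ℚ 1 (Y j).K (Y j).L) ∧
      (∀ (T : Finset ℕ) (E : Type) [Field E] [NumberField E] (ε : ℝ), 0 < ε →
        ∀ᶠ j in atTop, PairQ T E ε (Y j).K (Y j).L) ∧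
      ∀ J : Set ℕ, (∃ᶠ a in atTop, ∀ j, a ≤ j → j ≤ a + g a → j ∈ J) →
        (∀ j ∈ J, StarkW.StarkFaith (Y j).K (Y j).L) → ∀ t : Task N, Solved t := by
  have hct := task_countable N
  have hne := task_nonempty N
  obtain ⟨tk, htk⟩ := exists_surjective_nat (Task N)
  have hS : ∀ s, Nonempty (Stg N s) := fun s => exists_stg hLE hD hO s
  let S : ∀ s, Stg N s := fun s => (hS s).some
  have hfin : ∀ s, Finite (Fm tk (S s)) := fun s => fm_finite tk (S s)
  have hnon : ∀ s, Nonempty (Fm tk (S s)) := fun s => fm_nonempty tk (S s)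
  let P : ℕ → ℕ := fun s => Nat.card (Fm tk (S s))
  have hP : ∀ s, 0 < P s := fun s => Nat.card_pos
  let e : ∀ s, Fm tk (S s) ≃ Fin (P s) := fun s => Finite.equivFin _
  obtain ⟨lev, hlev, hJ⟩ := hC P hP g hg
  let x : ∀ m, Fm tk (S (lev m)) := fun m =>
    (e (lev m)).symm ⟨m % P (lev m), Nat.mod_lt _ (hP _)⟩
  let B : ℕ → ℕ := fun m => ∑ r ∈ Finset.range 5, F (5 * m + r)
  have hX : ∀ m, Concl (Finset.range (lev m)) (S (lev m)).E (1 / ((lev m : ℝ) + 1)) (B m)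
      (FmGood tk (S (lev m)) (x m)) := fun m => fm_out tk (S (lev m)) (x m) (B m)
  choose X hX1 hX2 using hX
  have hpair : ∀ j, PairQ (Finset.range (lev (j / 5))) (S (lev (j / 5))).E
      (1 / ((lev (j / 5) : ℝ) + 1)) (X (j / 5) ⟨j % 5, Nat.mod_lt _ (by norm_num)⟩).K
      (X (j / 5) ⟨j % 5, Nat.mod_lt _ (by norm_num)⟩).L := fun j => (hX1 (j / 5) _).1
  refine ⟨fun j => X (j / 5) ⟨j % 5, Nat.mod_lt _ (by norm_num)⟩, fun j => ⟨?_, ?_⟩, ?_, ?_⟩
  · refine le_trans ?_ (hX1 (j / 5) ⟨j % 5, Nat.mod_lt _ (by norm_num)⟩).2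
    have h1 : F (5 * (j / 5) + j % 5) ≤ B (j / 5) :=
      Finset.single_le_sum (f := fun r => F (5 * (j / 5) + r)) (fun _ _ => Nat.zero_le _)
        (Finset.mem_range.2 (Nat.mod_lt _ (by norm_num)))
    rwa [Nat.div_add_mod] at h1
  · refine pairQ_mono (Finset.empty_subset _) (algebraMap ℚ (S (lev (j / 5))).E) ?_ (hpair j)
    have h1 : (0 : ℝ) ≤ (lev (j / 5) : ℝ) := Nat.cast_nonneg _
    rw [div_le_one (by positivity)]
    linarith
  · intro T E _ _ ε hε
    obtain ⟨k, ⟨ι⟩⟩ := hcof E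
    obtain ⟨b, hb⟩ : ∃ b, T ⊆ Finset.range b := by
      obtain ⟨b, hb⟩ := T.bddAbove
      exact ⟨b + 1, fun x hx => Finset.mem_range.2 (Nat.lt_succ_of_le (hb hx))⟩
    obtain ⟨c, hc⟩ := exists_nat_one_div_lt hε
    have h1 : ∀ᶠ j : ℕ in atTop, max k (max b c) ≤ lev (j / 5) :=
      (hlev.comp (Nat.tendsto_div_const_atTop (by norm_num : (5 : ℕ) ≠ 0))).eventually
        (eventually_ge_atTop _)
    filter_upwards [h1] with j hj
    obtain ⟨κ⟩ := (S (lev (j / 5))).emb k (le_trans (le_max_left _ _) hj)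
    refine pairQ_mono (hb.trans (Finset.range_subset_range.2 ?_)) (κ.comp ι) ?_ (hpair j)
    · exact le_trans (le_trans (le_max_left _ _) (le_max_right _ _)) hj
    · refine le_trans ?_ hc.le
      have h2 : (c : ℝ) ≤ (lev (j / 5) : ℝ) := by
        exact_mod_cast le_trans (le_trans (le_max_right _ _) (le_max_right _ _)) hj
      exact one_div_le_one_div_of_le (by positivity) (by linarith)
  · intro J hJa hf t
    obtain ⟨i₀, rfl⟩ := htk t
    obtain ⟨s, hs, hs2⟩ := hJ J hJa i₀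
    refine ⟨Finset.range s, (S s).E, inferInstance, (S s).M (tk i₀), (S s).dec (tk i₀),
      fun p => ?_⟩
    let y : Fm tk (S s) := some ⟨⟨i₀, by omega⟩, p⟩
    obtain ⟨m, hm, hmi, hmJ⟩ := hs2 (e s y).1 (e s y).2
    subst hm
    have hxy : x m = y := by
      have h3 : (⟨m % P (lev m), Nat.mod_lt _ (hP _)⟩ : Fin (P (lev m))) = e (lev m) y :=
        Fin.ext hmi
      show (e (lev m)).symm _ = y
      rw [h3, Equiv.symm_apply_apply]
    have h4 : FmGood tk (S (lev m)) (x m) := by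
      refine hX2 m fun r => ?_
      have h5 : (fun E : SSQM.Ext => StarkW.StarkFaith E.K E.L)
          (X ((5 * m + (r : ℕ)) / 5) ⟨(5 * m + (r : ℕ)) % 5, Nat.mod_lt _ (by norm_num)⟩) :=
        hf (5 * m + r) (hmJ r r.2)
      have h6 : (5 * m + (r : ℕ)) / 5 = m := by omega
      have h7 : (5 * m + (r : ℕ)) % 5 = r := by omega
      have h8 : X ((5 * m + (r : ℕ)) / 5) ⟨(5 * m + (r : ℕ)) % 5, Nat.mod_lt _ (by norm_num)⟩ =
          X m r := by
        have h9 : (⟨(5 * m + (r : ℕ)) % 5, Nat.mod_lt _ (by norm_num)⟩ : Fin 5) = r :=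
          Fin.ext h7
        rw [h9, h6]
      rw [h8] at h5
      exact h5
    exact h4 ⟨⟨i₀, by omega⟩, p⟩ hxy

end StarkC.EXS
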