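import Pool.Agent.EXS.StE
import Pool.Agent.EXS.BCFM
import Pool.Agent.SSQ.SBCG
import Pool.Agent.SSQ.CYI
import Pool.Agent.SSQ.KUI
import Pool.Agent.SSQ.TRN
import Pool.Agent.StarkI.PBridgeI

/-!
# The five extensions of a pair of type (A) or (B)
-/

open NumberField IsDedekindDomain
open scoped TensorProduct Classical

namespace StarkC.EXS

theorem fieldM : FieldM := BCFM_thm SSQ.CYI_thm SSQ.KUI_thm SSQ.TRN_thm UEXT_thm

/-- Stark's assertion for a linear character from a base change with integral weights. -/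
theorem base_linear (F N N' : Type) [Field F] [NumberField F] [Field N] [NumberField N]
    [Field N'] [NumberField N'] [Algebra F N] [Algebra N N'] [Algebra F N'] [IsScalarTower F N N']
    [IsGalois F N] [IsGalois F N'] (ψ : (N ≃ₐ[F] N) →* ℂˣ)
    (A : Fin 5 → Subgroup (N' ≃ₐ[F] N')) (ψA : ∀ r, A r →* ℂˣ) (n : Fin 5 → ℤ)
    (hψA : ∀ r (h : A r) (g : N ≃ₐ[F] N),
      (∀ z : N, (h : N' ≃ₐ[F] N') (algebraMap N N' z) = algebraMap N N' (g z)) →
      ψA r h = ψ g)
    (hid : ∀ g : N' ≃ₐ[F] N', ∑ r, (n r : ℂ) * indFun (A r) (fun _ => 1) g = 1)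
    (hst : ∀ r, StarkLinear (IntermediateField.fixedField (A r)) N' (liftChar (A r) (ψA r))) :
    StarkLinear F N ψ := by
  intro S φ Θ σ hφ
  refine SPARSE.of_comb (N := N') RFULL.infl RFULL.ind LINF_thm S φ Θ ℂ ℂ (linRep ψ)
    (linRep (twist σ ψ)) σ hφ ?_ A ψA n ?_ hst
  · intro g
    rw [MAIN.linRep_character, MAIN.linRep_character]
    rfl
  · intro g
    rw [MAIN.linRep_character]
    have h1 : ∀ r, (n r : ℂ) * indFun (A r) (extZ (ψA r)) g =
        ((ψ (AlgEquiv.restrictNormalHom N g) : ℂˣ) : ℂ) *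
          ((n r : ℂ) * indFun (A r) (fun _ => 1) g) := by
      intro r
      rw [SSQSBCG.ind_eq ψ (A r) (ψA r) (hψA r) g]
      ring
    rw [Finset.sum_congr rfl fun r _ => h1 r, ← Finset.mul_sum, hid g, mul_one]

theorem OUTE_thm (hG : Stmt_GCE) (hB : Stmt_BCX5) (hI : Stmt_IDN5) (hF : Stmt_FLDE) :
    Stmt_OUTE := by
  intro l ε hl hlo hε hlε T E _ _ hsp N _ _ _ _ H ψ hty B
  have g := hG N T E H ψ hty
  obtain ⟨N', _, _, aN, aF, aE, st, stE, gQ, gF, A, ψA, n, hψA, hdeg, hgood, hid⟩ :=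
    hB fieldM hI T E (IntermediateField.fixedField H) N (liftChar H ψ) g B
  have key : ∀ r : Fin 5, ∃ X : SSQM.Ext, (Pair T E ε X.K X.L ∧ B ≤ Module.finrank ℚ X.K) ∧
      (StarkW.StarkFaith X.K X.L →
        StarkLinear (IntermediateField.fixedField (A r)) N' (liftChar (A r) (ψA r))) := by
    intro r
    obtain ⟨L, _, _, _, _, _, _, ψ', hinj, hψ', hp⟩ := hF l ε hl hlo hε hlε T E hsp
      (IntermediateField.fixedField (A r)) N' (liftChar (A r) (ψA r)) (hgood r)
    refine ⟨⟨IntermediateField.fixedField (A r), L⟩, ⟨hp, hdeg r⟩, fun hf => ?_⟩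
    exact SFAITH.up RFULL.infl SFULL.exph SFULL.sindp LINF_thm
      (IntermediateField.fixedField (A r)) L N' ψ' ((StarkB.starkLin_iff ψ').1 (hf ψ' hinj))
      (liftChar (A r) (ψA r)) hψ'
  choose X hX1 hX2 using key
  refine ⟨X, hX1, fun hf => ?_⟩
  exact base_linear (IntermediateField.fixedField H) N N' (liftChar H ψ) A ψA n hψA hid
    fun r => hX2 r (hf r)

end StarkC.EXS
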