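import Pool.Agent.EXS.SEQ2
import Pool.Agent.EXS.OUTE
import Pool.Agent.EXS.IDN5
import Pool.Agent.EXS.BCX5
import Pool.Agent.EXS.FLDE
import Pool.Agent.EXS.COMB5
import Pool.Agent.EXS.GCE
import Pool.Agent.EXS.DECE
import Pool.Agent.StarkI.PBridgeI

/-!
# The exact form of Stark's conjecture and a sparse sequence of cyclic extensions
-/

open NumberField IsDedekindDomain Filter
open scoped TensorProduct Classical

namespace StarkC.EXS

theorem oute : OutQ := outQ GCE_thm BCX5_thm IDN5_thm FLDE_thm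

theorem starkPQ_of {N : ℕ → Type} [∀ k, Field (N k)] [∀ k, NumberField (N k)]
    [∀ k, IsGalois ℚ (N k)]
    (hcof : ∀ (M : Type) [Field M] [NumberField M], ∃ k, Nonempty (M →+* N k))
    (hsol : ∀ t : Task N, Solved t) (h3 : StarkTotallyOdd) : StarkPQ fun M => M = 1 := by
  intro L _ _ _ S φ Θ V V' _ _ _ _ _ _ ρ ρ' σ hφ hσ
  refine ⟨1, rfl, (SMAIN.starkAt_of_one _ _ _ _ _ _).2 ?_⟩
  obtain ⟨k, ⟨ι⟩⟩ := hcof L
  let aLN : Algebra L (N k) := ι.toAlgebra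
  have h1 : IsMonComb (fun g : N k ≃ₐ[ℚ] N k => ρ.character (AlgEquiv.restrictNormalHom L g)) :=
    SFULL.bra (N k ≃ₐ[ℚ] N k) V (ρ.comp (AlgEquiv.restrictNormalHom L))
  obtain ⟨T, E, _, M, ⟨aNM, hdec⟩, hgood⟩ := hsol ⟨k, ⟨_, h1⟩⟩
  let aLM : Algebra L M.N := ((algebraMap (N k) M.N).comp (algebraMap L (N k))).toAlgebra
  have hst : IsScalarTower ℚ L M.N := IsScalarTower.of_algebraMap_eq' (Subsingleton.elim _ _)
  obtain ⟨m, H, ψ, n, hP, hF⟩ := CMB.of_mem_GS hdec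
  refine SPARSE.of_comb (N := M.N) RFULL.infl RFULL.ind LINF_thm S φ Θ V V' ρ ρ' σ hφ hσ H ψ n
    ?_ ?_
  · intro g
    rw [← hF g]
    show _ = ρ.character (AlgEquiv.restrictNormalHom L
      (AlgEquiv.restrictNormalHom (N k) g : N k ≃ₐ[ℚ] N k))
    rw [SSPANZ.res_res (L := L) (N := N k) (N' := M.N) (fun x => rfl)]
  · intro i
    rcases hP i with h | h
    · exact hgood ⟨⟨H i, ψ i⟩, h⟩
    · refine h3 _ M.N _ (SMAIN.totallyReal (H i) fun c hc => (h c hc).1) ?_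
      intro Φ c hc
      obtain ⟨h4, h5⟩ := h _ ⟨Φ, GOOD.isConj_symm (H i) c Φ hc⟩
      exact h5

/-- Stark's conjecture and one sparse sequence of cyclic extensions. -/
theorem main (F g : ℕ → ℕ) (hg : Tendsto g atTop atTop) :
    ∃ Y : ℕ → SSQM.Ext,
      (∀ j, F j ≤ Module.finrank ℚ (Y j).K ∧
        (StarkW.UnrPair ∅ (Y j).K (Y j).L ∨ StarkW.PowPair ℚ 1 (Y j).K (Y j).L)) ∧
      (∀ (T : Finset ℕ) (E : Type) [Field E] [NumberField E] (ε : ℝ), 0 < ε →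
        ∀ᶠ j in atTop, StarkW.QExt E (Y j).K ∧
          (StarkW.UnrPair T (Y j).K (Y j).L ∨ StarkW.PowPair E ε (Y j).K (Y j).L)) ∧
      ∀ J : Set ℕ, (∃ᶠ a in atTop, ∀ j, a ≤ j → j ≤ a + g a → j ∈ J) →
        (StarkP.StarkConjecture ↔
          (∀ j ∈ J, StarkW.StarkFaith (Y j).K (Y j).L) ∧ StarkW.StarkOdd) := by
  obtain ⟨N, _, _, hgal, hcof⟩ := SSQ.COF_thm
  obtain ⟨Y, hY1, hY2, hY3⟩ := seq (N := N) LEVE_thm (decQ DECE_thm) oute COMB5_thm hcof F g hg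
  refine ⟨Y, fun j => ⟨(hY1 j).1, (hY1 j).2.1⟩, fun T E _ _ ε hε =>
    (hY2 T E ε hε).mono fun j hj => ⟨hj.2, hj.1⟩, fun J hJ => ?_⟩
  rw [StarkB.starkConjecture_iff]
  constructor
  · intro h
    have key : ∀ (K L : Type) [Field K] [NumberField K] [Field L] [NumberField L] [Algebra K L]
        [IsGalois K L] (ψ : (L ≃ₐ[K] L) →* ℂˣ), StarkP.StarkLin ∅ ψ := by
      intro K L _ _ _ _ _ _ ψ
      rw [StarkB.starkLin_iff]
      intro φ Θ σ hφ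
      refine h K L ∅ φ Θ ℂ ℂ (linRep ψ) (linRep (twist σ ψ)) σ hφ ?_
      intro g
      rw [MAIN.linRep_character, MAIN.linRep_character]
      rfl
    exact ⟨fun j _ ψ _ => key (Y j).K (Y j).L ψ, fun K L _ _ _ _ _ _ ψ _ _ => key K L ψ⟩
  · rintro ⟨hA, hD⟩
    have h3 : StarkTotallyOdd := by
      refine SFAITH.ofD RFULL.infl SFULL.exph SFULL.sindp LINF_thm ?_
      intro K L _ _ _ _ _ _ hK ψ hψ ho
      exact (StarkB.starkLin_iff ψ).1 (hD K L ψ hψ ⟨hK, ho⟩)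
    have h4 : StarkP fun M => M = 1 := SFULL.baseq (fun M => M = 1) rfl
      (fun a b ha hb => by rw [ha, hb]) (starkPQ_of hcof (hY3 J hJ hA) h3)
    intro K L _ _ _ _ _ _ S φ Θ V V' _ _ _ _ _ _ ρ ρ' σ hφ hσ
    obtain ⟨M, rfl, hM⟩ := h4 K L S φ Θ V V' ρ ρ' σ hφ hσ
    exact (SMAIN.starkAt_of_one _ _ _ _ _ _).1 hM

end StarkC.EXS
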