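import Pool.Agent.StarkI.PDefsI

/-!
# A sparse sequence of cyclic extensions for Stark's conjecture: printable definitions
-/

open NumberField IsDedekindDomain
open scoped Classical

namespace StarkW

open StarkP

/-- `K` is totally complex, `L/K` is cyclic, all inertia groups of `L/K` are trivial and the
decomposition groups of the primes of `L` above the prime numbers in `T` are trivial. -/
structure UnrPair (T : Finset ℕ) (K L : Type) [Field K] [NumberField K] [Field L] [NumberField L]
    [Algebra K L] : Prop where
  totallyComplex : IsTotallyComplex K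
  cyclic : IsCyclic (L ≃ₐ[K] L)
  unrSplit : UnrSplit T K L

/-- `L` is totally complex, `L/K` is cyclic of prime power degree `p^n`, `EK/K` is a
`p`-extension and `K` has at most `ε [K : ℚ]` real places. -/
structure PowPair (E : Type) [Field E] (ε : ℝ) (K L : Type) [Field K] [NumberField K] [Field L]
    [NumberField L] [Algebra K L] : Prop where
  totallyComplex : IsTotallyComplex L
  cyclic : IsCyclic (L ≃ₐ[K] L)
  degree : ∃ p n : ℕ, p.Prime ∧ PExt p E K ∧ Module.finrank K L = p ^ n
  real : (InfinitePlace.nrRealPlaces K : ℝ) ≤ ε * (Module.finrank ℚ K : ℝ)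

/-- Stark's assertion with `S = S_∞` for all injective linear characters of `Gal(L/K)`. -/
def StarkFaith (K L : Type) [Field K] [NumberField K] [Field L] [NumberField L] [Algebra K L] :
    Prop :=
  ∀ ψ : (L ≃ₐ[K] L) →* ℂˣ, Function.Injective ψ → StarkLin ∅ ψ

/-- Stark's assertion with `S = S_∞` for all injective totally odd linear characters of
`Gal(L/K)`, for all finite Galois extensions `L/K` of totally real number fields `K`. -/
def StarkOdd : Prop :=
  ∀ (K L : Type) [Field K] [NumberField K] [Field L] [NumberField L] [Algebra K L] [IsGalois K L]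
    (ψ : (L ≃ₐ[K] L) →* ℂˣ), Function.Injective ψ → CaseD K L ψ → StarkLin ∅ ψ

end StarkW
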