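import Pool.Agent.EXS.OUTE
import Pool.Agent.EXS.DECE
import Pool.Agent.EXS.PDefsQ
import Pool.Agent.SSQ.BCX
import Pool.Agent.Stark.SOL

/-!
# Quasi-elementary groups
-/

open NumberField IsDedekindDomain
open scoped TensorProduct Classical

namespace StarkC.EXS

/-- Type (A), (B) for a quasi-elementary subgroup. -/
def TyQ (T : Finset ℕ) (E : Type) [Field E] {N : Type} [Field N] [NumberField N] [Algebra E N]
    (H : Subgroup (N ≃ₐ[ℚ] N)) (ψ : H →* ℂˣ) : Prop :=
  IsQuasiElem H ∧ TyAB T E H ψ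

theorem tyAB_le (T : Finset ℕ) (E : Type) [Field E] {N : Type} [Field N] [NumberField N]
    [Algebra E N] {K H : Subgroup (N ≃ₐ[ℚ] N)} (hKH : K ≤ H) {ψ : H →* ℂˣ} (h : TyAB T E H ψ) :
    TyAB T E K (ψ.comp (Subgroup.inclusion hKH)) := by
  rcases h with ⟨q, hq, ⟨⟨a, ha⟩, hE⟩, hcc⟩ | ⟨h1, h2, h3⟩
  · refine Or.inl ⟨q, hq, ⟨⟨a, ?_⟩, fun h hh => hE h (hKH hh)⟩, ?_⟩
    · refine MonoidHom.ext fun x => ?_
      rw [MonoidHom.pow_apply, MonoidHom.comp_apply, ← MonoidHom.pow_apply, ha]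
      rfl
    · rcases hcc with hcc | ⟨h2, hcc⟩
      · exact Or.inl fun c hc => hcc c (hKH hc)
      · exact Or.inr ⟨h2, fun c hc => hcc (Subgroup.inclusion hKH c) hc⟩
  · exact Or.inr ⟨fun c hc => h1 c (hKH hc), fun w g hg => h2 w (Subgroup.inclusion hKH g) hg,
      fun w hw g hg => h3 w hw (Subgroup.inclusion hKH g) hg⟩

theorem qe_map {G : Type} [Group G] [Finite G] {H : Subgroup G} (J : Subgroup H)
    (h : IsQuasiElem J) : IsQuasiElem (J.map H.subtype) :=
  SOL.qe_inj (J.equivMapOfInjective H.subtype H.subtype_injective).symm.toMonoidHom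
    (J.equivMapOfInjective H.subtype H.subtype_injective).symm.injective h

theorem span_tyQ (T : Finset ℕ) (E : Type) [Field E] {N : Type} [Field N] [NumberField N]
    [Algebra E N] {f : (N ≃ₐ[ℚ] N) → ℂ}
    (hf : f ∈ CMB.GS (G := N ≃ₐ[ℚ] N) (fun H ψ => TyAB T E H ψ ∨ Ty3 H ψ)) :
    f ∈ CMB.GS (G := N ≃ₐ[ℚ] N) (fun H ψ => TyQ T E H ψ ∨ Ty3 H ψ) := by
  refine Submodule.span_le.2 ?_ hf
  rintro _ ⟨⟨⟨H, ψ⟩, h | h⟩, rfl⟩
  · obtain ⟨m, J, n, hJ, h1⟩ := SOL_thm H
    have e : indFun H (extZ ψ) = ∑ i, n i • indFun ((J i).map H.subtype)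
        (extZ (ψ.comp (Subgroup.inclusion (Subgroup.map_subtype_le (J i))))) := by
      funext g
      rw [CMB.indFun_subgroup H (extZ ψ) (fun x g hx hg => ?_) m J n h1 g, Finset.sum_apply]
      · refine Finset.sum_congr rfl fun i _ => ?_
        rw [Pi.smul_apply, zsmul_eq_mul]
        congr 1
        refine congrFun (CMB.indFun_congr _ fun x hx => ?_) g
        have hx' : x ∈ H := Subgroup.map_subtype_le (J i) hx
        unfold extZ
        rw [dif_pos hx', dif_pos hx]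
        rfl
      · have h2 : x⁻¹ * g * x ∈ H := H.mul_mem (H.mul_mem (H.inv_mem hx) hg) hx
        unfold extZ
        rw [dif_pos h2, dif_pos hg]
        have h3 : (⟨x⁻¹ * g * x, h2⟩ : H) = (⟨x, hx⟩ : H)⁻¹ * ⟨g, hg⟩ * ⟨x, hx⟩ := rfl
        rw [h3, map_mul, map_mul, map_inv, mul_comm, ← mul_assoc, mul_inv_cancel, one_mul]
    show indFun H (extZ ψ) ∈ _
    rw [e]
    exact Submodule.sum_mem _ fun i _ => Submodule.smul_mem _ _ (CMB.mem_GS_of _ _
      (Or.inl ⟨qe_map (J i) (hJ i), tyAB_le T E _ h⟩))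
  · exact CMB.mem_GS_of _ _ (Or.inr h)

/-- `Gal(N/F)` acts on `E` through a quasi-elementary group. -/
def QActs (E F N : Type) [Field E] [Field F] [Field N] [Algebra F N] [Algebra E N] : Prop :=
  ∃ (Q : Type) (_ : Group Q) (_ : Finite Q) (r : (N ≃ₐ[F] N) →* Q), IsQuasiElem Q ∧
    ∀ g, r g = 1 → ∀ x : E, g (algebraMap E N x) = algebraMap E N x

theorem qacts_sub {E N : Type} [Field E] [Field N] [NumberField N] [IsGalois ℚ N] [Algebra E N]
    (H : Subgroup (N ≃ₐ[ℚ] N)) (hH : IsQuasiElem H) :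
    QActs E (IntermediateField.fixedField H) N := by
  refine ⟨H, inferInstance, inferInstance,
    (IntermediateField.subgroupEquivAlgEquiv H).symm.toMonoidHom, hH, fun g hg x => ?_⟩
  have h1 : g = 1 := (IntermediateField.subgroupEquivAlgEquiv H).symm.injective
    (by rw [map_one]; exact hg)
  rw [h1]
  rfl

theorem qacts_base {E F N N' : Type} [Field E] [Field F] [NumberField F] [Field N] [NumberField N]
    [Field N'] [NumberField N'] [Algebra F N] [Algebra N N'] [Algebra F N'] [IsScalarTower F N N']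
    [Algebra E N] [Algebra E N'] [IsScalarTower E N N'] [IsGalois F N] [IsGalois F N']
    (h : QActs E F N) (A : Subgroup (N' ≃ₐ[F] N')) :
    QActs E (IntermediateField.fixedField A) N' := by
  obtain ⟨Q, _, _, r, hQ, hr⟩ := h
  refine ⟨Q, inferInstance, inferInstance, r.comp (SSQBCX.rs A), hQ, fun g hg x => ?_⟩
  rw [IsScalarTower.algebraMap_apply E N N', SSQBCX.rs_commutes A, hr _ hg]

theorem qext_of {E F N : Type} [Field E] [Field F] [NumberField F] [Field N] [NumberField N]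
    [Algebra F N] [IsGalois F N] [Algebra E N] (h : QActs E F N) : StarkW.QExt E F := by
  obtain ⟨Q, _, _, r, hQ, hr⟩ := h
  let M : IntermediateField F N := IntermediateField.fixedField r.ker
  have hgal : IsGalois F M := IsGalois.of_fixedField_normal_subgroup r.ker
  have hfix : M.fixingSubgroup = r.ker := IntermediateField.fixingSubgroup_fixedField r.ker
  have hker : (AlgEquiv.restrictNormalHom M : (N ≃ₐ[F] N) →* (M ≃ₐ[F] M)).ker = r.ker := by
    rw [← hfix]
    exact IntermediateField.restrictNormalHom_ker M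
  have hsurj : Function.Surjective
      (AlgEquiv.restrictNormalHom M : (N ≃ₐ[F] N) →* (M ≃ₐ[F] M)) :=
    AlgEquiv.restrictNormalHom_surjective N
  let r' : (M ≃ₐ[F] M) →* Q := MonoidHom.liftOfSurjective
    (AlgEquiv.restrictNormalHom M : (N ≃ₐ[F] N) →* (M ≃ₐ[F] M)) hsurj ⟨r, hker.le⟩
  have hr' : ∀ g : N ≃ₐ[F] N, r' (AlgEquiv.restrictNormalHom M g : M ≃ₐ[F] M) = r g :=
    fun g => MonoidHom.liftOfRightInverse_comp_apply _ _ _ ⟨r, hker.le⟩ g
  have hinj : Function.Injective r' := by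
    rw [injective_iff_map_eq_one]
    intro a ha
    obtain ⟨g, rfl⟩ := hsurj a
    rw [hr'] at ha
    have h1 : g ∈ (AlgEquiv.restrictNormalHom M : (N ≃ₐ[F] N) →* (M ≃ₐ[F] M)).ker := by
      rw [hker]
      exact ha
    exact h1
  refine ⟨M, inferInstance, inferInstance, hgal, SOL.qe_inj r' hinj hQ, ⟨?_⟩⟩
  exact (algebraMap E N).codRestrict M.toSubfield.toSubring fun x =>
    (IntermediateField.mem_fixedField_iff r.ker _).2 fun g hg => hr g hg x

/-- A good pair of fields such that `EK/K` is quasi-elementary. -/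
def PairQ (T : Finset ℕ) (E : Type) [Field E] (ε : ℝ) (K L : Type) [Field K] [NumberField K]
    [Field L] [NumberField L] [Algebra K L] : Prop :=
  Pair T E ε K L ∧ StarkW.QExt E K

/-- OUTE for a quasi-elementary subgroup. -/
def OutQ : Prop :=
  ∀ (l : ℕ) (ε : ℝ), l.Prime → Odd l → 0 < ε → 1 ≤ ε * l →
  ∀ (T : Finset ℕ) (E : Type) [Field E] [NumberField E],
    ((Polynomial.X ^ l - Polynomial.C 2 : Polynomial ℚ).map (algebraMap ℚ E)).Splits →
  ∀ (N : Type) [Field N] [NumberField N] [IsGalois ℚ N] [Algebra E N]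
    (H : Subgroup (N ≃ₐ[ℚ] N)) (ψ : H →* ℂˣ), TyQ T E H ψ → ∀ B : ℕ,
    ∃ X : Fin 5 → SSQM.Ext,
      (∀ r, PairQ T E ε (X r).K (X r).L ∧ B ≤ Module.finrank ℚ (X r).K) ∧
      ((∀ r, StarkW.StarkFaith (X r).K (X r).L) →
        StarkLinear (IntermediateField.fixedField H) N (liftChar H ψ))

theorem outQ (hG : Stmt_GCE) (hB : Stmt_BCX5) (hI : Stmt_IDN5) (hF : Stmt_FLDE) : OutQ := by
  intro l ε hl hlo hε hlε T E _ _ hsp N _ _ _ _ H ψ hty B
  have g := hG N T E H ψ hty.2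
  have hq := qacts_sub (E := E) H hty.1
  obtain ⟨N', _, _, aN, aF, aE, st, stE, gQ, gF, A, ψA, n, hψA, hdeg, hgood, hid⟩ :=
    hB fieldM hI T E (IntermediateField.fixedField H) N (liftChar H ψ) g B
  have key : ∀ r : Fin 5, ∃ X : SSQM.Ext, (PairQ T E ε X.K X.L ∧ B ≤ Module.finrank ℚ X.K) ∧
      (StarkW.StarkFaith X.K X.L →
        StarkLinear (IntermediateField.fixedField (A r)) N' (liftChar (A r) (ψA r))) := by
    intro r
    obtain ⟨L, _, _, _, _, _, _, ψ', hinj, hψ', hp⟩ := hF l ε hl hlo hε hlε T E hsp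
      (IntermediateField.fixedField (A r)) N' (liftChar (A r) (ψA r)) (hgood r)
    refine ⟨⟨IntermediateField.fixedField (A r), L⟩, ⟨⟨hp, qext_of (qacts_base hq (A r))⟩,
      hdeg r⟩, fun hf => ?_⟩
    exact SFAITH.up RFULL.infl SFULL.exph SFULL.sindp LINF_thm
      (IntermediateField.fixedField (A r)) L N' ψ' ((StarkB.starkLin_iff ψ').1 (hf ψ' hinj))
      (liftChar (A r) (ψA r)) hψ'
  choose X hX1 hX2 using key
  refine ⟨X, hX1, fun hf => ?_⟩
  exact base_linear (IntermediateField.fixedField H) N N' (liftChar H ψ) A ψA n hψA hid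
    fun r => hX2 r (hf r)

/-- The decomposition at one level. -/
def DecQ : Prop :=
  ∀ (T : Finset ℕ) (E : Type) [Field E] [NumberField E] [IsGalois ℚ E], (∃ i : E, i ^ 2 = -1) →
  ∀ (L : Type) [Field L] [NumberField L] [IsGalois ℚ L] (f : (L ≃ₐ[ℚ] L) → ℂ), IsMonComb f →
    ∃ (N : Type) (_ : Field N) (_ : NumberField N) (_ : Algebra L N) (_ : Algebra E N)
      (_ : IsGalois ℚ N), (fun g : N ≃ₐ[ℚ] N => f (AlgEquiv.restrictNormalHom L g)) ∈
        CMB.GS (G := N ≃ₐ[ℚ] N) (fun H ψ => TyQ T E H ψ ∨ Ty3 H ψ)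

theorem decQ (h : Stmt_DECE) : DecQ := by
  intro T E _ _ _ hi L _ _ _ f hf
  obtain ⟨N, iF, iN, aL, aE, iG, hN⟩ := h T E hi L f hf
  exact ⟨N, iF, iN, aL, aE, iG, span_tyQ T E hN⟩

/-- The trivial group is quasi-elementary. -/
theorem qe_bot (G : Type) [Group G] : IsQuasiElem (⊥ : Subgroup G) := by
  refine ⟨2, ⊤, Nat.prime_two, inferInstance, ?_, ?_, 0, ?_⟩
  · infer_instance
  · rw [Nat.card_eq_one_iff_unique.2 ⟨inferInstance, ⟨1⟩⟩]
    norm_num
  · rw [Subgroup.index_top, pow_zero]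

end StarkC.EXS
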