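import Pool.Agent.SSQ.MAIN
import Pool.Agent.SSQ.IDN
import Pool.Agent.StarkI.SFULL
import Pool.Agent.EXS.PDefsX

/-!
# The exact form of Stark's conjecture and a sparse sequence of cyclic extensions: statements

Project EXS (MP_46b841_nt).
-/

open NumberField IsDedekindDomain
open scoped TensorProduct Classical

namespace StarkC.EXS

/-- IDN5.  The integral relation in `AGL₁(q)`.  `T_l = {t : t ^ ((q - 1) / l) = 1}` has
`(q - 1) / l` elements (`(ZMod q)ˣ` is cyclic of order `q - 1`).  With `n = #{a = 0, b = 1}`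
(`SSQ.SSQIDN.fib`, `fibA`, `fibB`, `sumfib2`, `cardG`): `|A₀| = (q - 1) n`, `|A₂| = ((q - 1)/l) q n`,
`|A₁| = ((q - 1)/l) n`.  `ind1 A₂ g = l` if `b g ∈ T_l`, else `0`; `ind1 A₁ g = l · ind1 A₀ g` if
`b g ∈ T_l`, else `0`; `ind1 A₀ g = 1` if `b g ≠ 1` (all of this as in `SSQ.IDN_thm`, where
`ind1 A₀ g = #{s : a g + (b g - 1) s = 0}`).  So `ind1 A₁ g - ind1 A₂ g = l (ind1 A₀ g - 1)` for
`b g = 1` and `0` for `b g ≠ 1`. -/
def Stmt_IDN5 : Prop :=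
  ∀ (G : Type) [Group G] [Fintype G] (q : ℕ) [Fact q.Prime] (b : G →* (ZMod q)ˣ)
    (a : G → ZMod q) (l₁ l₂ : ℕ) (A₀ A₁ A₂ A₃ A₄ : Subgroup G),
    (∀ g h, a (g * h) = a g + (b g : ZMod q) * a h) →
    (∀ (s : ZMod q) (t : (ZMod q)ˣ), ∃ g, a g = s ∧ b g = t) →
    l₁ ∣ q - 1 → l₂ ∣ q - 1 →
    (∀ g, g ∈ A₀ ↔ a g = 0) →
    (∀ g, g ∈ A₁ ↔ a g = 0 ∧ b g ^ ((q - 1) / l₁) = 1) →
    (∀ g, g ∈ A₂ ↔ b g ^ ((q - 1) / l₁) = 1) →
    (∀ g, g ∈ A₃ ↔ a g = 0 ∧ b g ^ ((q - 1) / l₂) = 1) →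
    (∀ g, g ∈ A₄ ↔ b g ^ ((q - 1) / l₂) = 1) →
    A₀.index = q ∧ A₂.index = l₁ ∧ A₄.index = l₂ ∧
    ∀ (x y : ℤ), x * l₁ + y * l₂ = 1 → ∀ g,
      SSQ.ind1 A₀ g - x * (SSQ.ind1 A₁ g - SSQ.ind1 A₂ g) -
        y * (SSQ.ind1 A₃ g - SSQ.ind1 A₄ g) = 1

/-- The fields for the base change: as BCF with `q` congruent to `1` modulo `m`. -/
def FieldM : Prop :=
  ∀ (N : Type) [Field N] [NumberField N] [IsGalois ℚ N] (B m : ℕ), 0 < m →
    ∃ (q : ℕ) (N' : Type) (_ : Field N') (_ : NumberField N') (_ : Algebra N N')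
      (_ : IsGalois ℚ N') (ζ κ : N'), q.Prime ∧ B < q - 1 ∧ m ∣ q - 1 ∧ IsPrimitiveRoot ζ q ∧
      κ ^ q = 2 ∧ ∀ a b : ℕ, b.Coprime q → ∃ h : N' ≃ₐ[N] N', h ζ = ζ ^ b ∧ h κ = ζ ^ a * κ

/-- BCFM.  As `BCF_thm` with `Nat.exists_prime_gt_modEq_one` in place of
`Nat.exists_infinite_primes`. -/
def Stmt_BCFM : Prop :=
  SSQ.Stmt_CYI → SSQ.Stmt_KUI → SSQ.Stmt_TRN → Stmt_UEXT → FieldM

/-- The types (A) and (B), (C) of the exact reduction, for a subgroup of `Gal(N/ℚ)`. -/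
def TyAB (T : Finset ℕ) (E : Type) [Field E] {N : Type} [Field N] [NumberField N] [Algebra E N]
    (H : Subgroup (N ≃ₐ[ℚ] N)) (ψ : H →* ℂˣ) : Prop :=
  (∃ q : ℕ, q.Prime ∧ Ty1S q E H ψ ∧ ((∀ c ∈ H, ¬ IsCC c) ∨
    (q = 2 ∧ ∀ c : H, IsCC (c : N ≃ₐ[ℚ] N) → ((ψ c : ℂˣ) : ℂ) = -1))) ∨ Ty2 T H ψ

/-- The same in relative form. -/
def GoodE (T : Finset ℕ) (E : Type) [Field E] {F N : Type} [Field F] [NumberField F] [Field N]
    [NumberField N] [Algebra F N] [Algebra E N] (ψ : (N ≃ₐ[F] N) →* ℂˣ) : Prop :=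
  (∃ p a : ℕ, p.Prime ∧ ψ ^ (p ^ a) = 1 ∧
    (∀ g : N ≃ₐ[F] N, ∃ k : ℕ, ∀ x : E, (g ^ (p ^ k)) (algebraMap E N x) = algebraMap E N x) ∧
    (IsTotallyComplex F ∨
      (p = 2 ∧ ∀ (Φ : N →+* ℂ) (c : N ≃ₐ[F] N), ComplexEmbedding.IsConj Φ c → (ψ c : ℂ) = -1))) ∨
  (IsTotallyComplex F ∧
    (∀ (w : HeightOneSpectrum (𝓞 N)) (g : N ≃ₐ[F] N), FrobPow N w 1 g → ψ g = 1) ∧
    (∀ (w : HeightOneSpectrum (𝓞 N)), (∃ p ∈ T, p.Prime ∧ (p : 𝓞 N) ∈ w.asIdeal) →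
      ∀ g : N ≃ₐ[F] N, Dec w g → ψ g = 1))

/-- GCE.  From subgroups of `Gal(N/ℚ)` to the relative form; all the steps are in
`SMAIN.finTy_good` (`SMAIN.symm_fun`, `SMAIN.pow_symm`, `SMAIN.pow_lift`, `GOOD.totallyComplex`,
`GOOD.isConj_symm`). -/
def Stmt_GCE : Prop :=
  ∀ (N : Type) [Field N] [NumberField N] [IsGalois ℚ N] (T : Finset ℕ) (E : Type) [Field E]
    [Algebra E N] (H : Subgroup (N ≃ₐ[ℚ] N)) (ψ : H →* ℂˣ), TyAB T E H ψ →
    GoodE T E (liftChar H ψ)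

/-- The result of the base change. -/
def BaseE (T : Finset ℕ) (E : Type) [Field E] (F N : Type) [Field F] [NumberField F] [Field N]
    [NumberField N] [Algebra F N] [Algebra E N] (ψ : (N ≃ₐ[F] N) →* ℂˣ) (B : ℕ) : Prop :=
  ∃ (N' : Type) (_ : Field N') (_ : NumberField N') (_ : Algebra N N') (_ : Algebra F N')
    (_ : Algebra E N') (_ : IsScalarTower F N N') (_ : IsScalarTower E N N') (_ : IsGalois ℚ N')
    (_ : IsGalois F N') (A : Fin 5 → Subgroup (N' ≃ₐ[F] N')) (ψA : ∀ r, A r →* ℂˣ)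
    (n : Fin 5 → ℤ),
    (∀ r (h : A r) (g : N ≃ₐ[F] N),
      (∀ z : N, (h : N' ≃ₐ[F] N') (algebraMap N N' z) = algebraMap N N' (g z)) →
      ψA r h = ψ g) ∧
    (∀ r, B ≤ Module.finrank ℚ (IntermediateField.fixedField (A r))) ∧
    (∀ r, GoodE T E (liftChar (A r) (ψA r))) ∧
    ∀ g : N' ≃ₐ[F] N', ∑ r, (n r : ℂ) * indFun (A r) (fun _ => 1) g = 1

/-- BCX5.  As `BCX_thm` (the lemmas `SSQBCX.aa_mul`, `aa_zero_iff`, `bb_spec`, `rs_commutes`, ... of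
`SSQ/BCX.lean`).  Choose primes `l₁ ≠ l₂` with `B ≤ l₁, l₂`, integers `x l₁ + y l₂ = 1`, and `N'`
from `FieldM` for `B` and `m = l₁ l₂`.  `A = ![A₀, A₁, A₂, A₃, A₄]` in `Gal(N'/F)` as in IDN5 with
`a = aa`, `b = autToPow`, `n = ![1, -x, x, -y, y]`, `ψA r h = ψ (h|N)`.  Degree:
`[F' : F] = A.index` (`IntermediateField.finrank_fixedField_eq_index`-like, or
`finrank F' N' = card A`), the indices are `q`, `≥ l₁` (`A₁ ≤ A₂`: `Subgroup.index_dvd_of_le`), `l₁`,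
`≥ l₂`, `l₂`.  `GoodE`: `F'` is totally complex if `F` is; unramified and split by
restriction to `N` (as in `SSQBCX.good_of`); powers: `h ^ (p ^ k)` restricted to `N` is
`(h|N) ^ (p ^ k)`; odd: `CMB.isConj_restrict` and `GOOD.isConj_symm`. -/
def Stmt_BCX5 : Prop :=
  FieldM → Stmt_IDN5 →
  ∀ (T : Finset ℕ) (E : Type) [Field E] (F N : Type) [Field F] [NumberField F] [Field N]
    [NumberField N] [Algebra F N] [Algebra E N] [IsGalois F N] [IsGalois ℚ N]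
    (ψ : (N ≃ₐ[F] N) →* ℂˣ), GoodE T E ψ → ∀ B : ℕ, BaseE T E F N ψ B

/-- A good pair of fields. -/
def Pair (T : Finset ℕ) (E : Type) [Field E] (ε : ℝ) (K L : Type) [Field K] [NumberField K]
    [Field L] [NumberField L] [Algebra K L] : Prop :=
  StarkW.UnrPair T K L ∨ StarkW.PowPair E ε K L

/-- FLDE.  The field cut out by a good character is a good pair.  `FAITH.exists_field`; the
unramified case as in `SSQ/FLD.lean`; cyclic: the image of an injective character of a finite group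
is cyclic (`isCyclic_of_subgroup_isDomain` with `Units.coeHom ℂ` after `ψ'`).  Prime powers:
`ψ' ^ (p ^ a) = 1` (`SFAITH.pow_down`), so `Gal(L/F)` (cyclic, `ψ'` injective) has exponent dividing
`p ^ a` and its order, `Module.finrank F L = Nat.card` (`IsGalois.card_aut_eq_finrank`), divides
`p ^ a` (`(Nat.dvd_prime_pow hp).1`).  `PExt p E F`: the field `N`.  `L` is totally complex: if `F`
is, clear; in the odd case a real embedding `Φ'` of `L` would give `ComplexEmbedding.IsConj Φ' 1`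
and `ψ' 1 = -1` (`SFAITH.odd_down`).  Real places: `0` if `F` is totally complex, and
`SEPS_thm` (for `2`: `nrRealPlaces F * l ≤ [F : ℚ]`) in the odd case. -/
def Stmt_FLDE : Prop :=
  ∀ (l : ℕ) (ε : ℝ), l.Prime → Odd l → 0 < ε → 1 ≤ ε * l →
  ∀ (T : Finset ℕ) (E : Type) [Field E] [NumberField E],
    ((Polynomial.X ^ l - Polynomial.C 2 : Polynomial ℚ).map (algebraMap ℚ E)).Splits →
  ∀ (F N : Type) [Field F] [NumberField F] [Field N] [NumberField N] [Algebra F N] [Algebra E N]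
    [IsGalois F N] (ψ : (N ≃ₐ[F] N) →* ℂˣ), GoodE T E ψ →
    ∃ (L : Type) (_ : Field L) (_ : NumberField L) (_ : Algebra F L) (_ : Algebra L N)
      (_ : IsScalarTower F L N) (_ : IsGalois F L) (ψ' : (L ≃ₐ[F] L) →* ℂˣ),
      Function.Injective ψ' ∧
      (∀ g : N ≃ₐ[F] N, ψ' (AlgEquiv.restrictNormalHom L g : L ≃ₐ[F] L) = ψ g) ∧
      Pair T E ε F L

/-- OUTE.  The five extensions of a pair of type (A) or (B): GCE, BCX5, FLDE,
`SFAITH.up` (with `RFULL.infl`, `SFULL.exph`, `SFULL.sindp`, `LINF_thm`; `StarkB.starkLin_iff`) and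
`SPARSE.of_comb` (with `RFULL.infl`, `RFULL.ind`, `LINF_thm`; `SSQSBCG.ind_eq`). -/
def Stmt_OUTE : Prop :=
  ∀ (l : ℕ) (ε : ℝ), l.Prime → Odd l → 0 < ε → 1 ≤ ε * l →
  ∀ (T : Finset ℕ) (E : Type) [Field E] [NumberField E],
    ((Polynomial.X ^ l - Polynomial.C 2 : Polynomial ℚ).map (algebraMap ℚ E)).Splits →
  ∀ (N : Type) [Field N] [NumberField N] [IsGalois ℚ N] [Algebra E N]
    (H : Subgroup (N ≃ₐ[ℚ] N)) (ψ : H →* ℂˣ), TyAB T E H ψ → ∀ B : ℕ,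
    ∃ X : Fin 5 → SSQM.Ext,
      (∀ r, Pair T E ε (X r).K (X r).L ∧ B ≤ Module.finrank ℚ (X r).K) ∧
      ((∀ r, StarkW.StarkFaith (X r).K (X r).L) →
        StarkLinear (IntermediateField.fixedField H) N (liftChar H ψ))

/-- COMB5.  As `SSQ.comb` with blocks of length `5` in place of `3`. -/
def Stmt_COMB5 : Prop :=
  ∀ (P : ℕ → ℕ), (∀ s, 0 < P s) → ∀ (g : ℕ → ℕ), Filter.Tendsto g Filter.atTop Filter.atTop →
    ∃ lev : ℕ → ℕ, Filter.Tendsto lev Filter.atTop Filter.atTop ∧ ∀ J : Set ℕ,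
      (∃ᶠ a in Filter.atTop, ∀ j, a ≤ j → j ≤ a + g a → j ∈ J) →
      ∀ s₀, ∃ s, s₀ ≤ s ∧ ∀ i < P s, ∃ m, lev m = s ∧ m % P s = i ∧
        ∀ r < 5, 5 * m + r ∈ J

/-- LEVE.  A field `E` for the stage: Galois, contains a given field, `√-1` and the roots of
`X^l - 2` (`SMAIN.exists_E'`). -/
def Stmt_LEVE : Prop :=
  ∀ (E₀ : Type) [Field E₀] [NumberField E₀] (l : ℕ), 0 < l →
    ∃ (E : Type) (_ : Field E) (_ : NumberField E) (_ : Algebra E₀ E) (_ : IsGalois ℚ E),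
      ((Polynomial.X ^ l - Polynomial.C 2 : Polynomial ℚ).map (algebraMap ℚ E)).Splits ∧
      ∃ i : E, i ^ 2 = -1

/-- DECE.  The decomposition at one level (`SMAIN.span_FM`, `SSPANZ_thm`, `STY1_thm`, ... as in
`SMAIN.starkPQ`). -/
def Stmt_DECE : Prop :=
  ∀ (T : Finset ℕ) (E : Type) [Field E] [NumberField E] [IsGalois ℚ E], (∃ i : E, i ^ 2 = -1) →
  ∀ (L : Type) [Field L] [NumberField L] [IsGalois ℚ L] (f : (L ≃ₐ[ℚ] L) → ℂ), IsMonComb f →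
    ∃ (N : Type) (_ : Field N) (_ : NumberField N) (_ : Algebra L N) (_ : Algebra E N)
      (_ : IsGalois ℚ N), (fun g : N ≃ₐ[ℚ] N => f (AlgEquiv.restrictNormalHom L g)) ∈
        CMB.GS (G := N ≃ₐ[ℚ] N) (fun H ψ => TyAB T E H ψ ∨ Ty3 H ψ)

end StarkC.EXS
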